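import Pool.Agent.Helper89.EA.Defs

/-!
# Project EA, piece B1a: basic facts on types
-/

namespace Pool.Agent.Helper89.EA

variable {σ : Sig} {M N N' K : Type}

theorem st_refl (A : RS σ N) {ι : Type} (v : ι → N) : ST A A v v :=
  ⟨fun _ _ => Iff.rfl, fun _ _ => Iff.rfl⟩

theorem st_symm {A : RS σ N} {B : RS σ K} {ι : Type} {v : ι → N} {w : ι → K}
    (h : ST A B v w) : ST B A w v :=
  ⟨fun i j => (h.1 i j).symm, fun s x => (h.2 s x).symm⟩

theorem st_trans {A : RS σ N} {B : RS σ K} {D : RS σ M} {ι : Type} {v : ι → N} {w : ι → K}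
    {u : ι → M} (h : ST A B v w) (h' : ST B D w u) : ST A D v u :=
  ⟨fun i j => (h.1 i j).trans (h'.1 i j), fun s x => (h.2 s x).trans (h'.2 s x)⟩

theorem st_comp {A : RS σ N} {B : RS σ K} {ι κ : Type} {v : ι → N} {w : ι → K}
    (h : ST A B v w) (f : κ → ι) : ST A B (v ∘ f) (w ∘ f) :=
  ⟨fun i j => h.1 (f i) (f j), fun s x => h.2 s (f ∘ x)⟩

theorem st_sum_left {A : RS σ N} {B : RS σ K} {ι κ : Type} {v : ι → N} {v' : κ → N} {w : ι → K}
    {w' : κ → K} (h : ST A B (Sum.elim v v') (Sum.elim w w')) : ST A B v w :=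
  st_comp h Sum.inl

theorem st_sum_right {A : RS σ N} {B : RS σ K} {ι κ : Type} {v : ι → N} {v' : κ → N} {w : ι → K}
    {w' : κ → K} (h : ST A B (Sum.elim v v') (Sum.elim w w')) : ST A B v' w' :=
  st_comp h Sum.inr

theorem st_iff_at {A : RS σ N} {B : RS σ K} {ι : Type} {v : ι → N} {w : ι → K} :
    ST A B v w ↔ ∀ (a : At σ) (x : Fin a.ar → ι), a.ev A (v ∘ x) ↔ a.ev B (w ∘ x) := by
  constructor
  · intro h a x
    cases a with
    | rel s => exact h.2 s x
    | eq => exact h.1 (x (0 : Fin 2)) (x (1 : Fin 2))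
  · intro h
    refine ⟨fun i j => ?_, fun s x => h (At.rel s) x⟩
    exact h At.eq (![i, j] : Fin 2 → ι)

/-- a difference is seen by an atom -/
theorem not_st_at {A : RS σ N} {B : RS σ K} {ι : Type} {v : ι → N} {w : ι → K}
    (h : ¬ ST A B v w) :
    ∃ (a : At σ) (x : Fin a.ar → ι), ¬ (a.ev A (v ∘ x) ↔ a.ev B (w ∘ x)) := by
  by_contra hcon
  push Not at hcon
  exact h (st_iff_at.2 hcon)

instance at_finite : Finite (At σ) := by
  refine Finite.of_injective (fun a : At σ => (match a with
    | .rel s => some s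
    | .eq => none : Option σ.Sy)) ?_
  intro a b hab
  cases a with
  | rel s =>
    cases b with
    | rel s' =>
      have : s = s' := Option.some.inj hab
      rw [this]
    | eq => exact absurd hab (by simp)
  | eq =>
    cases b with
    | rel s' => exact absurd hab (by simp)
    | eq => rfl

theorem at_ar_le (a : At σ) : a.ar ≤ σ.r := by
  cases a with
  | rel s => exact σ.har s
  | eq => exact σ.hr

/-- types are determined by the subtuples of length `r` (nonempty index type) -/
theorem st_small {A : RS σ N} {B : RS σ K} {ι : Type} [Nonempty ι] {v : ι → N} {w : ι → K}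
    (h : ∀ x : Fin σ.r → ι, ST A B (v ∘ x) (w ∘ x)) : ST A B v w := by
  classical
  obtain ⟨d⟩ := ‹Nonempty ι›
  rw [st_iff_at]
  intro a x
  have hle := at_ar_le a
  have hy := h (fun j : Fin σ.r => if hj : j.1 < a.ar then x ⟨j.1, hj⟩ else d)
  rw [st_iff_at] at hy
  have hx := hy a (Fin.castLE hle)
  have e : (fun j : Fin σ.r => if hj : j.1 < a.ar then x ⟨j.1, hj⟩ else d) ∘ Fin.castLE hle
      = x := by
    funext j
    have : ((Fin.castLE hle j : Fin σ.r) : ℕ) < a.ar := j.2
    simp only [Function.comp_apply, dif_pos this]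
    rfl
  rw [Function.comp_assoc, Function.comp_assoc, e] at hx
  exact hx

/-- same, any index type, for structures in the class -/
theorem st_small' {M0 : RS σ M} {A : RS σ N} {B : RS σ K} (hA : InC M0 A) (hB : InC M0 B)
    {ι : Type} {v : ι → N} {w : ι → K}
    (h : ∀ x : Fin σ.r → ι, ST A B (v ∘ x) (w ∘ x)) : ST A B v w := by
  rcases isEmpty_or_nonempty ι with hι | hι
  · obtain ⟨wA, hwA⟩ := hA 0 Fin.elim0
    obtain ⟨wB, hwB⟩ := hB 0 Fin.elim0
    refine ⟨fun i => (hι.false i).elim, fun s x => ?_⟩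
    have h0 : σ.ar s = 0 := by
      by_contra hne
      exact hι.false (x ⟨0, Nat.pos_of_ne_zero hne⟩)
    have hF : IsEmpty (Fin (σ.ar s)) := by rw [h0]; infer_instance
    have e1 := hwA.2 s (fun j => (hF.false j).elim)
    have e2 := hwB.2 s (fun j => (hF.false j).elim)
    have f1 : v ∘ x = Fin.elim0 ∘ (fun j => (hF.false j).elim) :=
      funext fun j => (hF.false j).elim
    have f2 : w ∘ x = Fin.elim0 ∘ (fun j => (hF.false j).elim) :=
      funext fun j => (hF.false j).elim
    have f3 : wA ∘ (fun j : Fin (σ.ar s) => (hF.false j).elim)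
        = wB ∘ (fun j : Fin (σ.ar s) => (hF.false j).elim) :=
      funext fun j => (hF.false j).elim
    rw [f1, f2, e1, e2, f3]
  · exact st_small h

/-- `ST` can be checked on finite subtuples -/
theorem st_finite {A : RS σ N} {B : RS σ K} {ι : Type} {v : ι → N} {w : ι → K}
    (h : ∀ (n : ℕ) (x : Fin n → ι), ST A B (v ∘ x) (w ∘ x)) : ST A B v w := by
  rw [st_iff_at]
  intro a x
  have := (st_iff_at.1 (h a.ar x)) a id
  exact this

end Pool.Agent.Helper89.EA
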