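import Pool.Agent.Helper89.EA.P.B1a

/-!
# Project EA, piece B1b: embeddings, the class `InC`, existentially closed structures
-/

namespace Pool.Agent.Helper89.EA

variable {σ : Sig} {M N N' K : Type}

theorem emb_injective {A : RS σ N} {B : RS σ K} {f : N → K} (h : Emb A B f) :
    Function.Injective f :=
  fun i j hij => (h.1 i j).2 hij

theorem emb_st {A : RS σ N} {B : RS σ K} {f : N → K} (h : Emb A B f) {ι : Type} (v : ι → N) :
    ST A B v (f ∘ v) :=
  st_comp h v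

theorem emb_id (A : RS σ N) : Emb A A id := st_refl A id

theorem emb_comp {A : RS σ N} {B : RS σ K} {D : RS σ M} {f : N → K} {g : K → M}
    (h : Emb A B f) (h' : Emb B D g) : Emb A D (g ∘ f) :=
  st_trans h (emb_st h' f)

theorem emb_comap (B : RS σ K) {f : N → K} (hf : Function.Injective f) :
    Emb (B.comap f) B f :=
  ⟨fun _ _ => hf.eq_iff.symm, fun _ _ => Iff.rfl⟩

/-- to be an embedding it is enough to preserve types of finite tuples -/
theorem emb_of_finite {A : RS σ N} {B : RS σ K} {f : N → K}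
    (h : ∀ (n : ℕ) (v : Fin n → N), ST A B v (f ∘ v)) : Emb A B f :=
  st_finite (v := id) (w := f) h

theorem inC_self (M0 : RS σ M) : InC M0 M0 := fun _ v => ⟨v, st_refl M0 v⟩

theorem inC_finite {M0 : RS σ M} {A : RS σ N} (h : InC M0 A) {ι : Type} [Finite ι] (v : ι → N) :
    ∃ w : ι → M, ST A M0 v w := by
  obtain ⟨n, ⟨e⟩⟩ := Finite.exists_equiv_fin ι
  obtain ⟨w, hw⟩ := h n (v ∘ e.symm)
  refine ⟨w ∘ e, ?_⟩
  have h1 := st_comp hw e
  have h2 : (v ∘ e.symm) ∘ e = v := by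
    funext i
    simp
  rw [h2] at h1
  exact h1

theorem inC_of_emb {M0 : RS σ M} {A : RS σ N} {B : RS σ K} {f : N → K} (hf : Emb A B f)
    (h : InC M0 B) : InC M0 A := by
  intro n v
  obtain ⟨w, hw⟩ := h n (f ∘ v)
  exact ⟨w, st_trans (emb_st hf v) hw⟩

/-- if every finite tuple of `A` has the type of a tuple of some structure in the class -/
theorem inC_of_local {M0 : RS σ M} {A : RS σ N}
    (h : ∀ (n : ℕ) (v : Fin n → N), ∃ (K : Type) (B : RS σ K) (w : Fin n → K),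
      InC M0 B ∧ ST A B v w) : InC M0 A := by
  intro n v
  obtain ⟨K, B, w, hB, hw⟩ := h n v
  obtain ⟨u, hu⟩ := hB n w
  exact ⟨u, st_trans hw hu⟩

theorem ec_finite {M0 : RS σ M} {A : RS σ N} (h : EC M0 A) {A' : RS σ N'} (hA' : InC M0 A')
    {f : N → N'} (hf : Emb A A' f) {ι κ : Type} [Finite ι] [Finite κ] (a : ι → N) (b : κ → N') :
    ∃ b' : κ → N, ST A' A (Sum.elim (f ∘ a) b) (Sum.elim a b') := by
  obtain ⟨n, ⟨e⟩⟩ := Finite.exists_equiv_fin ι
  obtain ⟨m, ⟨e'⟩⟩ := Finite.exists_equiv_fin κ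
  obtain ⟨b', hb'⟩ := h.2 N' A' hA' f hf n m (a ∘ e.symm) (b ∘ e'.symm)
  refine ⟨b' ∘ e', ?_⟩
  have h1 := st_comp hb' (Sum.map e e')
  have h2 : Sum.elim (f ∘ a ∘ e.symm) (b ∘ e'.symm) ∘ Sum.map e e' = Sum.elim (f ∘ a) b := by
    funext i
    rcases i with i | i <;> simp
  have h3 : Sum.elim (a ∘ e.symm) b' ∘ Sum.map e e' = Sum.elim a (b' ∘ e') := by
    funext i
    rcases i with i | i <;> simp
  rw [h2, h3] at h1
  exact h1

end Pool.Agent.Helper89.EA
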