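import Pool.Agent.Helper89.EA.P.B1b

/-!
# Project EA, piece B2: closure properties of the first order definable predicates `FOc`

(all proofs are short; `foc_ren` is an induction on `FOc`, generalizing the map; the predicates in
the index of the inductive family are handled with `foc_congr`, i.e. `funext`/`propext`)
-/

namespace Pool.Agent.Helper89.EA

variable {σ : Sig} {M K : Type}

theorem foc_congr {ι : Type} {P Q : ∀ N : Type, RS σ N → (ι → N) → Prop} (hP : FOc σ P)
    (h : ∀ N A v, P N A v ↔ Q N A v) : FOc σ Q := by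
  have e : P = Q := by
    funext N A v
    exact propext (h N A v)
  rw [← e]
  exact hP

theorem foc_or {ι : Type} {P Q : ∀ N : Type, RS σ N → (ι → N) → Prop} (hP : FOc σ P)
    (hQ : FOc σ Q) : FOc σ (fun N A v => P N A v ∨ Q N A v) := by
  refine foc_congr (FOc.not _ (FOc.and _ _ (FOc.not _ hP) (FOc.not _ hQ))) fun N A v => ?_
  rw [not_and_or, not_not, not_not]

theorem foc_imp {ι : Type} {P Q : ∀ N : Type, RS σ N → (ι → N) → Prop} (hP : FOc σ P)
    (hQ : FOc σ Q) : FOc σ (fun N A v => P N A v → Q N A v) := by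
  refine foc_congr (foc_or (FOc.not _ hP) hQ) fun N A v => ?_
  exact imp_iff_not_or.symm

theorem foc_iff {ι : Type} {P Q : ∀ N : Type, RS σ N → (ι → N) → Prop} (hP : FOc σ P)
    (hQ : FOc σ Q) : FOc σ (fun N A v => (P N A v ↔ Q N A v)) := by
  refine foc_congr (FOc.and _ _ (foc_imp hP hQ) (foc_imp hQ hP)) fun N A v => ?_
  exact iff_iff_implies_and_implies.symm

theorem foc_all {ι κ : Type} [Finite κ] {P : ∀ N : Type, RS σ N → (ι ⊕ κ → N) → Prop}
    (h : FOc σ P) : FOc σ (fun N A v => ∀ w : κ → N, P N A (Sum.elim v w)) := by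
  refine foc_congr (FOc.not _ (FOc.ex _ (FOc.not _ h))) fun N A v => ?_
  exact not_exists_not

theorem foc_const {ι : Type} [Finite ι] (p : Prop) :
    FOc σ (ι := ι) (fun _ _ _ => p) :=
  FOc.pat _ fun _ _ _ _ _ _ _ => Iff.rfl

theorem foc_finite_all {ι J : Type} [Finite ι] [Finite J]
    {P : J → ∀ N : Type, RS σ N → (ι → N) → Prop} (h : ∀ j, FOc σ (P j)) :
    FOc σ (fun N A v => ∀ j, P j N A v) := by
  have key : ∀ (J : Type) [Finite J], ∀ P : J → ∀ N : Type, RS σ N → (ι → N) → Prop,
      (∀ j, FOc σ (P j)) → FOc σ (fun N A v => ∀ j, P j N A v) := by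
    intro J _
    refine Finite.induction_empty_option
      (P := fun J => ∀ P : J → ∀ N : Type, RS σ N → (ι → N) → Prop,
        (∀ j, FOc σ (P j)) → FOc σ (fun N A v => ∀ j, P j N A v)) ?_ ?_ ?_ J
    · intro α β e ih P hP
      refine foc_congr (ih (fun a => P (e a)) fun a => hP (e a)) fun N A v => ?_
      exact e.forall_congr_right (q := fun b => P b N A v)
    · intro P _
      refine foc_congr (foc_const True) fun N A v => ?_
      exact ⟨fun _ j => j.elim, fun _ => trivial⟩
    · intro α _ ih P hP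
      refine foc_congr (FOc.and _ _ (hP none) (ih (fun a => P (some a)) fun a => hP (some a)))
        fun N A v => ?_
      exact (Option.forall (p := fun j => P j N A v)).symm
  exact key J P h

theorem foc_finite_ex {ι J : Type} [Finite ι] [Finite J]
    {P : J → ∀ N : Type, RS σ N → (ι → N) → Prop} (h : ∀ j, FOc σ (P j)) :
    FOc σ (fun N A v => ∃ j, P j N A v) := by
  refine foc_congr (FOc.not _ (foc_finite_all fun j => FOc.not _ (h j))) fun N A v => ?_
  exact not_forall_not

theorem foc_ren_aux {ι : Type} {P : ∀ N : Type, RS σ N → (ι → N) → Prop} (h : FOc σ P) :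
    ∀ {κ : Type} [Finite κ] (f : ι → κ), FOc σ (fun N A (v : κ → N) => P N A (v ∘ f)) := by
  induction h with
  | pat P hP =>
    intro κ _ f
    exact FOc.pat _ fun N N' A A' v w hvw => hP N N' A A' _ _ (st_comp hvw f)
  | not P h ih =>
    intro κ _ f
    exact FOc.not _ (ih f)
  | and P Q hP hQ ihP ihQ =>
    intro κ _ f
    exact FOc.and _ _ (ihP f) (ihQ f)
  | ex P h ih =>
    intro κ _ f
    refine foc_congr (FOc.ex _ (ih (Sum.map f id))) fun N A v => ?_
    refine exists_congr fun w => ?_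
    rw [Sum.elim_comp_map, Function.comp_id]

/-- renaming the variables -/
theorem foc_ren {ι κ : Type} [Finite κ] {P : ∀ N : Type, RS σ N → (ι → N) → Prop} (h : FOc σ P)
    (f : ι → κ) : FOc σ (fun N A (v : κ → N) => P N A (v ∘ f)) :=
  foc_ren_aux h f

theorem foc_ex1 {ι : Type} {P : ∀ N : Type, RS σ N → (ι ⊕ Unit → N) → Prop} (h : FOc σ P) :
    FOc σ (fun N A v => ∃ x : N, P N A (Sum.elim v (fun _ => x))) := by
  refine foc_congr (FOc.ex _ h) fun N A v => ?_
  constructor
  · rintro ⟨w, hw⟩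
    exact ⟨w (), hw⟩
  · rintro ⟨x, hx⟩
    exact ⟨fun _ => x, hx⟩

theorem foc_all1 {ι : Type} {P : ∀ N : Type, RS σ N → (ι ⊕ Unit → N) → Prop} (h : FOc σ P) :
    FOc σ (fun N A v => ∀ x : N, P N A (Sum.elim v (fun _ => x))) := by
  refine foc_congr (foc_all h) fun N A v => ?_
  constructor
  · intro hw x
    exact hw fun _ => x
  · intro hx w
    exact hx (w ())

theorem foc_eq {ι : Type} [Finite ι] (i j : ι) :
    FOc σ (fun _ _ v => v i = v j) :=
  FOc.pat _ fun _ _ _ _ _ _ hvw => hvw.1 i j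

theorem foc_rel {ι : Type} [Finite ι] (s : σ.Sy) (x : Fin (σ.ar s) → ι) :
    FOc σ (fun _ A v => A s (v ∘ x)) :=
  FOc.pat _ fun _ _ _ _ _ _ hvw => hvw.2 s x

/-- having a fixed type -/
theorem foc_st {ι : Type} [Finite ι] (B : RS σ K) (w : ι → K) :
    FOc σ (fun _ A v => ST A B v w) :=
  FOc.pat _ fun _ _ _ _ _ _ hvw =>
    ⟨fun h => st_trans (st_symm hvw) h, fun h => st_trans hvw h⟩

/-- two subtuples have the same type -/
theorem foc_st_self {ι κ : Type} [Finite ι] (f g : κ → ι) :
    FOc σ (fun _ A v => ST A A (v ∘ f) (v ∘ g)) :=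
  FOc.pat _ fun _ _ _ _ _ _ hvw =>
    ⟨fun h => st_trans (st_symm (st_comp hvw f)) (st_trans h (st_comp hvw g)),
      fun h => st_trans (st_comp hvw f) (st_trans h (st_symm (st_comp hvw g)))⟩

/-- `FOc` predicates are invariant under isomorphisms -/
theorem foc_iso {ι : Type} {P : ∀ N : Type, RS σ N → (ι → N) → Prop} (h : FOc σ P)
    {N N' : Type} {A : RS σ N} {A' : RS σ N'} (e : N ≃ N') (he : Emb A A' e) (v : ι → N) :
    P N A v ↔ P N' A' (e ∘ v) := by
  induction h with
  | pat P hP => exact hP N N' A A' _ _ (emb_st he v)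
  | not P h ih => exact not_congr (ih v)
  | and P Q hP hQ ihP ihQ => exact and_congr (ihP v) (ihQ v)
  | ex P h ih =>
    constructor
    · rintro ⟨w, hw⟩
      refine ⟨e ∘ w, ?_⟩
      rw [← Sum.comp_elim]
      exact (ih _).1 hw
    · rintro ⟨w, hw⟩
      refine ⟨e.symm ∘ w, (ih _).2 ?_⟩
      rw [Sum.comp_elim, ← Function.comp_assoc, e.self_comp_symm, Function.id_comp]
      exact hw

end Pool.Agent.Helper89.EA
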