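import Pool.Agent.Helper89.EA.P.B1b

/-!
# Project EA, piece B3a: ultraproducts
-/

namespace Pool.Agent.Helper89.EA

open Filter

variable {σ : Sig} {M K : Type} {I : Type} {u : Ultrafilter I} {N : I → Type}
  {A : ∀ i, RS σ (N i)}

theorem up_exists_mk (y : UP u N) : ∃ x : ∀ i, N i, UP.mk u x = y :=
  Quotient.exists_rep y

theorem up_mk_eq {x y : ∀ i, N i} : UP.mk u x = UP.mk u y ↔ ∀ᶠ i in (u : Filter I), x i = y i := by
  exact @Quotient.eq _ ((u : Filter I).productSetoid N) x y

theorem up_out_mk (x : ∀ i, N i) :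
    ∀ᶠ i in (u : Filter I), (Quotient.out (UP.mk u x)) i = x i := by
  rw [← up_mk_eq]
  exact Quotient.out_eq _

theorem up_rs_mk (s : σ.Sy) (x : Fin (σ.ar s) → ∀ i, N i) :
    UP.rs u A s (fun j => UP.mk u (x j)) ↔ ∀ᶠ i in (u : Filter I), A i s (fun j => x j i) := by
  unfold UP.rs
  have h : ∀ᶠ i in (u : Filter I), ∀ j, (Quotient.out (UP.mk u (x j))) i = x j i :=
    Filter.eventually_all.2 fun j => up_out_mk (x j)
  refine Filter.eventually_congr ?_
  filter_upwards [h] with i hi
  rw [show (fun j => (Quotient.out (UP.mk u (x j))) i) = fun j => x j i from funext hi]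

theorem uf_iff {P Q : I → Prop} : ((∀ᶠ i in (u : Filter I), P i) ↔ ∀ᶠ i in (u : Filter I), Q i) ↔
    ∀ᶠ i in (u : Filter I), (P i ↔ Q i) := by
  simp only [iff_iff_implies_and_implies, Filter.eventually_and, Ultrafilter.eventually_imp]

theorem uf_iff_const {P : I → Prop} {q : Prop} : ((∀ᶠ i in (u : Filter I), P i) ↔ q) ↔
    ∀ᶠ i in (u : Filter I), (P i ↔ q) := by
  rw [← uf_iff (P := P) (Q := fun _ => q), Filter.eventually_const]

/-- two ultraproducts -/
theorem up_st_iff2 {N' : I → Type} {A' : ∀ i, RS σ (N' i)} {ι : Type} [Finite ι]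
    (x : ι → ∀ i, N i) (y : ι → ∀ i, N' i) :
    ST (UP.rs u A) (UP.rs u A') (fun j => UP.mk u (x j)) (fun j => UP.mk u (y j)) ↔
      ∀ᶠ i in (u : Filter I), ST (A i) (A' i) (fun j => x j i) (fun j => y j i) := by
  unfold ST
  rw [Filter.eventually_and]
  simp only [Filter.eventually_all]
  refine and_congr (forall_congr' fun a => forall_congr' fun b => ?_)
    (forall_congr' fun s => forall_congr' fun z => ?_)
  · rw [up_mk_eq, up_mk_eq]
    exact uf_iff
  · have e1 : ((fun j => UP.mk u (x j)) ∘ z) = fun j => UP.mk u (x (z j)) := rfl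
    have e2 : ((fun j => UP.mk u (y j)) ∘ z) = fun j => UP.mk u (y (z j)) := rfl
    rw [e1, e2, up_rs_mk, up_rs_mk]
    exact uf_iff

/-- the type of a finite tuple of an ultraproduct is the limit of the types -/
theorem up_st_iff {ι : Type} [Finite ι] (x : ι → ∀ i, N i) (B : RS σ K) (w : ι → K) :
    ST (UP.rs u A) B (fun j => UP.mk u (x j)) w ↔
      ∀ᶠ i in (u : Filter I), ST (A i) B (fun j => x j i) w := by
  unfold ST
  rw [Filter.eventually_and]
  simp only [Filter.eventually_all]
  refine and_congr (forall_congr' fun a => forall_congr' fun b => ?_)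
    (forall_congr' fun s => forall_congr' fun z => ?_)
  · rw [up_mk_eq]
    exact uf_iff_const
  · have e1 : ((fun j => UP.mk u (x j)) ∘ z) = fun j => UP.mk u (x (z j)) := rfl
    rw [e1, up_rs_mk]
    exact uf_iff_const

theorem up_inC {M0 : RS σ M} (h : ∀ i, InC M0 (A i)) : InC M0 (UP.rs u A) := by
  intro n v
  choose x hx using fun j => up_exists_mk (v j)
  choose w hw using fun i => h i n (fun j => x j i)
  -- the quantifier free type
  let T : Type := (Fin n → Fin n → Prop) × (∀ s : σ.Sy, (Fin (σ.ar s) → Fin n) → Prop)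
  have : Finite T := by
    have : ∀ s : σ.Sy, Finite ((Fin (σ.ar s) → Fin n) → Prop) := fun s => inferInstance
    infer_instance
  let ty : I → T := fun i => (fun a b => x a i = x b i, fun s z => A i s (fun j => x (z j) i))
  obtain ⟨t, ht⟩ := Ultrafilter.eq_pure_of_finite (u.map ty)
  have ht' : ∀ᶠ i in (u : Filter I), ty i = t := by
    have h1 : ∀ᶠ y in ((u.map ty : Ultrafilter T) : Filter T), y = t := by
      rw [ht]
      exact Filter.eventually_pure.2 rfl
    rw [Ultrafilter.coe_map, Filter.eventually_map] at h1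
    exact h1
  obtain ⟨i0, hi0⟩ := ht'.exists
  refine ⟨w i0, ?_⟩
  have e : v = fun j => UP.mk u (x j) := funext fun j => (hx j).symm
  rw [e, up_st_iff]
  filter_upwards [ht'] with i hi
  have hii : ty i = ty i0 := by rw [hi, hi0]
  have h0 := hw i0
  refine ⟨fun a b => ?_, fun s z => ?_⟩
  · have h1 : (x a i = x b i) = (x a i0 = x b i0) :=
      congrFun (congrFun (congrArg Prod.fst hii) a) b
    rw [← h0.1 a b]
    exact Iff.of_eq h1
  · have h1 : (A i s (fun j => x (z j) i)) = (A i0 s (fun j => x (z j) i0)) :=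
      congrFun (congrFun (congrArg Prod.snd hii) s) z
    rw [← h0.2 s z]
    exact Iff.of_eq h1

/-- limits of almost embeddings are embeddings -/
theorem up_emb {B : RS σ K} (h : ∀ i, K → N i)
    (hh : ∀ (n : ℕ) (v : Fin n → K), ∀ᶠ i in (u : Filter I), ST B (A i) v (h i ∘ v)) :
    Emb B (UP.rs u A) (fun x => UP.mk u (fun i => h i x)) := by
  refine ⟨fun a b => ?_, fun s x => ?_⟩
  · rw [up_mk_eq]
    symm
    simp only [id]
    rw [uf_iff_const]
    filter_upwards [hh 2 ![a, b]] with i hi
    have := hi.1 0 1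
    simpa using this.symm
  · have e1 : ((fun x => UP.mk u (fun i => h i x)) ∘ x) = fun j => UP.mk u (fun i => h i (x j)) :=
      rfl
    rw [e1, up_rs_mk]
    symm
    rw [uf_iff_const]
    filter_upwards [hh (σ.ar s) x] with i hi
    exact (hi.2 s id).symm

/-- an ultrafilter on the finite subsets of `K` containing all the cones -/
theorem exists_cone_ultrafilter (K : Type) :
    ∃ u : Ultrafilter (Finset K), ∀ C : Finset K, ∀ᶠ D in (u : Filter (Finset K)), C ⊆ D := by
  classical
  refine ⟨Ultrafilter.of (Filter.atTop : Filter (Finset K)), fun C => ?_⟩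
  exact (Filter.eventually_ge_atTop C).filter_mono (Ultrafilter.of_le _)

/-- a finite tuple is contained in almost all finite sets of a cone ultrafilter -/
theorem cone_eventually {K : Type} {u : Ultrafilter (Finset K)}
    (hu : ∀ C : Finset K, ∀ᶠ D in (u : Filter (Finset K)), C ⊆ D) {ι : Type} [Finite ι]
    (v : ι → K) : ∀ᶠ D in (u : Filter (Finset K)), ∀ i, v i ∈ D := by
  filter_upwards [hu (Set.finite_range v).toFinset] with D hD i
  exact hD (by simp)

end Pool.Agent.Helper89.EA
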