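import Pool.Agent.Helper89.EA.P.B3a

/-!
# Project EA, piece B3b: limits of chains
-/

namespace Pool.Agent.Helper89.EA

open Filter

variable {σ : Sig} {M : Type}

/-- The union of a chain of types and injective maps. -/
theorem exists_union (K : ℕ → Type) (e : ∀ i, K i → K (i + 1))
    (he : ∀ i, Function.Injective (e i)) :
    ∃ (K' : Type) (κ : ∀ i, K i → K'), (∀ i, Function.Injective (κ i)) ∧
      (∀ i x, κ (i + 1) (e i x) = κ i x) ∧ ∀ y, ∃ i x, κ i x = y := by
  let f : ∀ {i j : ℕ}, i ≤ j → K i → K j := fun h x => Nat.leRecOn h (fun {k} => e k) x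
  have hself : ∀ {i : ℕ} (x : K i), f le_rfl x = x := fun x => Nat.leRecOn_self x
  have hsucc : ∀ {i j : ℕ} (h : i ≤ j) (x : K i), f (Nat.le_succ_of_le h) x = e j (f h x) :=
    fun h x => Nat.leRecOn_succ h x
  have htrans : ∀ {i j k : ℕ} (h : i ≤ j) (h' : j ≤ k) (x : K i),
      f (h.trans h') x = f h' (f h x) := fun h h' x => Nat.leRecOn_trans h h' x
  have hinj : ∀ {i j : ℕ} (h : i ≤ j), Function.Injective (f h) := by
    intro i j h
    induction j, h using Nat.le_induction with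
    | base => intro x y hxy; rwa [hself, hself] at hxy
    | succ j h ih =>
      intro x y hxy
      have h1 : e j (f h x) = e j (f h y) := by
        rw [← hsucc h, ← hsucc h]
        exact hxy
      exact ih (he j h1)
  let S : Setoid (Σ i, K i) :=
    { r := fun x y => ∃ (m : ℕ) (hx : x.1 ≤ m) (hy : y.1 ≤ m), f hx x.2 = f hy y.2
      iseqv := by
        refine ⟨fun x => ⟨x.1, le_rfl, le_rfl, rfl⟩, ?_, ?_⟩
        · rintro x y ⟨m, hx, hy, h⟩
          exact ⟨m, hy, hx, h.symm⟩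
        · rintro x y z ⟨m, hx, hy, h⟩ ⟨m', hy', hz, h'⟩
          refine ⟨max m m', hx.trans (le_max_left _ _), hz.trans (le_max_right _ _), ?_⟩
          rw [htrans hx (le_max_left m m'), h, ← htrans, htrans hz (le_max_right m m'), ← h',
            ← htrans] }
  refine ⟨Quotient S, fun i x => Quotient.mk S ⟨i, x⟩, ?_, ?_, ?_⟩
  · intro i x y hxy
    obtain ⟨m, h1, h2, h3⟩ := Quotient.exact hxy
    exact hinj h1 h3
  · intro i x
    apply Quotient.sound
    refine ⟨i + 1, le_rfl, Nat.le_succ i, ?_⟩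
    change f le_rfl (e i x) = f (Nat.le_succ_of_le le_rfl) x
    rw [hself, hsucc le_rfl, hself]
  · intro y
    obtain ⟨⟨i, x⟩, hx⟩ := Quotient.exists_rep y
    exact ⟨i, x, hx⟩

/-- The union of a chain of countable structures. -/
theorem chain_limit {M0 : RS σ M} {K : ℕ → Type} (A : ∀ i, RS σ (K i)) (e : ∀ i, K i → K (i + 1))
    (he : ∀ i, Emb (A i) (A (i + 1)) (e i)) (hK : ∀ i, Countable (K i))
    (hC : ∀ i, InC M0 (A i)) :
    ∃ (K' : Type) (_ : Countable K') (A' : RS σ K') (κ : ∀ i, K i → K'),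
      InC M0 A' ∧ (∀ i, Emb (A i) A' (κ i)) ∧ (∀ i x, κ (i + 1) (e i x) = κ i x) ∧
      ∀ y, ∃ i x, κ i x = y := by
  obtain ⟨K', κ, hinj, hcomm, hsurj⟩ := exists_union K e fun i => emb_injective (he i)
  have htr : ∀ {i j : ℕ}, i ≤ j → ∃ g : K i → K j, Emb (A i) (A j) g ∧ ∀ x, κ j (g x) = κ i x := by
    intro i j h
    induction j, h using Nat.le_induction with
    | base => exact ⟨id, emb_id _, fun _ => rfl⟩
    | succ j h ih =>
      obtain ⟨g, hg, hκ⟩ := ih
      exact ⟨e j ∘ g, emb_comp hg (he j), fun x => by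
        rw [Function.comp_apply, hcomm, hκ]⟩
  have hcount : Countable K' := by
    have hs : Function.Surjective (fun z : (Σ i, K i) => κ z.1 z.2) := by
      intro y
      obtain ⟨i, x, hx⟩ := hsurj y
      exact ⟨⟨i, x⟩, hx⟩
    exact hs.countable
  let A' : RS σ K' := fun s v => ∃ (i : ℕ) (x : Fin (σ.ar s) → K i), κ i ∘ x = v ∧ A i s x
  have hEmb : ∀ i, Emb (A i) A' (κ i) := by
    intro i
    refine ⟨fun a b => (hinj i).eq_iff.symm, fun s x => ⟨fun h => ⟨i, x, rfl, h⟩, ?_⟩⟩
    rintro ⟨j, y, hy, hA⟩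
    obtain ⟨g, hg, hgκ⟩ := htr (le_max_left i j)
    obtain ⟨g', hg', hgκ'⟩ := htr (le_max_right i j)
    have h1 : g ∘ x = g' ∘ y := by
      funext l
      apply hinj (max i j)
      rw [Function.comp_apply, Function.comp_apply, hgκ, hgκ']
      exact (congrFun hy l).symm
    have h2 := (emb_st hg x).2 s id
    have h3 := (emb_st hg' y).2 s id
    change A i s x
    have h4 : A i s x ↔ A (max i j) s (g ∘ x) := h2
    have h5 : A j s y ↔ A (max i j) s (g' ∘ y) := h3
    rw [h4, h1, ← h5]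
    exact hA
  refine ⟨K', hcount, A', κ, ?_, hEmb, hcomm, hsurj⟩
  apply inC_of_local
  intro n v
  choose i x hx using fun l => hsurj (v l)
  obtain ⟨m, hm⟩ : ∃ m, ∀ l, i l ≤ m :=
    ⟨Finset.univ.sup i, fun l => Finset.le_sup (f := i) (Finset.mem_univ l)⟩
  choose g hg hgκ using fun l => htr (hm l)
  refine ⟨K m, A m, fun l => g l (x l), hC m, ?_⟩
  have h1 : v = κ m ∘ fun l => g l (x l) := by
    funext l
    rw [Function.comp_apply, hgκ, hx]
  rw [h1]
  exact st_symm (emb_st (hEmb m) _)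

end Pool.Agent.Helper89.EA
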