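import Pool.Agent.Helper89.EA.P.B3b

/-!
# Project EA, piece B3c: existentially closed structures
-/

namespace Pool.Agent.Helper89.EA

open Filter

variable {σ : Sig} {M K : Type}

/-- joint embedding: every structure of the class and `M0` embed in a common structure -/
theorem jep {M0 : RS σ M} {B : RS σ K} (hB : InC M0 B) :
    ∃ (K' : Type) (B' : RS σ K') (f : K → K') (g : M → K'), InC M0 B' ∧ Emb B B' f ∧
      Emb M0 B' g := by
  classical
  obtain ⟨u, hu⟩ := exists_cone_ultrafilter K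
  have hM : ∀ _ : K, Nonempty M := fun x => by
    obtain ⟨w, _⟩ := hB 1 (fun _ => x)
    exact ⟨w 0⟩
  choose w hw using fun D : Finset K => inC_finite hB (fun x : {x // x ∈ D} => (x : K))
  let h : Finset K → K → M := fun D x =>
    if hx : x ∈ D then w D ⟨x, hx⟩ else Classical.choice (hM x)
  refine ⟨UP u (fun _ : Finset K => M), UP.rs u (fun _ => M0),
    fun x => UP.mk u (fun D => h D x), fun x => UP.mk u (fun _ => x),
    up_inC (fun _ => inC_self M0), ?_, ?_⟩
  · refine up_emb h ?_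
    intro n v
    filter_upwards [cone_eventually hu v] with D hD
    have e : h D ∘ v = w D ∘ fun i => (⟨v i, hD i⟩ : {x // x ∈ D}) := by
      funext i
      simp only [h, Function.comp_apply, dif_pos (hD i)]
    rw [e]
    exact st_comp (hw D) (fun i => (⟨v i, hD i⟩ : {x // x ∈ D}))
  · refine up_emb (fun _ x => x) ?_
    intro n v
    exact Filter.Eventually.of_forall fun _ => st_refl M0 v

/-- a countable piece of a structure, containing the image of a countable structure and countably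
many prescribed points -/
theorem exists_countable_sub {N X : Type} [Countable K] [Countable X] {M0 : RS σ M}
    {B : RS σ K} {A : RS σ N} (hA : InC M0 A) {f : K → N} (hf : Emb B A f) (t : X → N) :
    ∃ (N' : Type) (_ : Countable N') (A' : RS σ N') (j : N' → N) (f' : K → N') (t' : X → N'),
      InC M0 A' ∧ Emb A' A j ∧ Emb B A' f' ∧ j ∘ f' = f ∧ j ∘ t' = t := by
  have hcnt : Countable ↥(Set.range f ∪ Set.range t) :=
    ((Set.countable_range f).union (Set.countable_range t)).to_subtype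
  refine ⟨↥(Set.range f ∪ Set.range t), hcnt, A.comap Subtype.val, Subtype.val,
    fun x => ⟨f x, Or.inl ⟨x, rfl⟩⟩, fun x => ⟨t x, Or.inr ⟨x, rfl⟩⟩, ?_, ?_, ?_, rfl, rfl⟩
  · exact inC_of_emb (emb_comap A Subtype.val_injective) hA
  · exact emb_comap A Subtype.val_injective
  · refine ⟨fun a b => ?_, fun s x => ?_⟩
    · rw [hf.1 a b]
      exact ⟨fun h => Subtype.ext h, fun h => congrArg Subtype.val h⟩
    · exact hf.2 s x

/-- Codes of quantifier free types. -/
def TyC (σ : Sig) (ι : Type) : Type :=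
  (ι → ι → Prop) × (∀ s : σ.Sy, (Fin (σ.ar s) → ι) → Prop)

instance tyC_finite (σ : Sig) (ι : Type) [Finite ι] : Finite (TyC σ ι) := by
  unfold TyC
  have : ∀ s : σ.Sy, Finite ((Fin (σ.ar s) → ι) → Prop) := fun s => inferInstance
  infer_instance

/-- The code of the type of a tuple. -/
def tyC {N : Type} (A : RS σ N) {ι : Type} (v : ι → N) : TyC σ ι :=
  (fun i j => v i = v j, fun s x => A s (v ∘ x))

theorem tyC_eq_iff {N N' : Type} {A : RS σ N} {B : RS σ N'} {ι : Type} {v : ι → N}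
    {w : ι → N'} : tyC A v = tyC B w ↔ ST A B v w := by
  constructor
  · intro h
    refine ⟨fun i j => ?_, fun s x => ?_⟩
    · exact Iff.of_eq (congrFun (congrFun (congrArg Prod.fst h) i) j)
    · exact Iff.of_eq (congrFun (congrFun (congrArg Prod.snd h) s) x)
  · intro h
    refine Prod.ext ?_ ?_
    · funext i j
      exact propext (h.1 i j)
    · funext s x
      exact propext (h.2 s x)

/-- Tasks over a set of points: realize a type over a finite tuple. -/
abbrev Task (σ : Sig) (N : Type) : Type :=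
  Σ n : ℕ, Σ m : ℕ, (Fin n → N) × TyC σ (Fin n ⊕ Fin m)

instance task_countable (N : Type) [Countable N] : Countable (Task σ N) := by
  infer_instance

instance task_nonempty (N : Type) : Nonempty (Task σ N) :=
  ⟨⟨0, 0, Fin.elim0, (fun _ _ => True, fun _ _ => True)⟩⟩

/-- The task `t` over `N` is decided in the extension `A` (with `f : N → L`). -/
def Decides {N L : Type} (M0 : RS σ M) (t : Task σ N) (A : RS σ L) (f : N → L) : Prop :=
  ∀ (N' : Type) (A' : RS σ N'), InC M0 A' → ∀ g : L → N', Emb A A' g →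
    (∃ b : Fin t.2.1 → N', tyC A' (Sum.elim (g ∘ f ∘ t.2.2.1) b) = t.2.2.2) →
    ∃ b : Fin t.2.1 → L, tyC A (Sum.elim (f ∘ t.2.2.1) b) = t.2.2.2

theorem comp_sum_elim {α β γ δ : Type} (g : γ → δ) (a : α → γ) (b : β → γ) :
    g ∘ Sum.elim a b = Sum.elim (g ∘ a) (g ∘ b) := by
  funext i
  rcases i with i | i <;> rfl

theorem decides_of_emb {N L L' : Type} {M0 : RS σ M} {t : Task σ N} {A : RS σ L} {f : N → L}
    (h : Decides M0 t A f) {A' : RS σ L'} {κ : L → L'} (hκ : Emb A A' κ) :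
    Decides M0 t A' (κ ∘ f) := by
  intro N' A'' hA'' g hg ⟨b, hb⟩
  obtain ⟨b', hb'⟩ := h N' A'' hA'' (g ∘ κ) (emb_comp hκ hg) ⟨b, hb⟩
  refine ⟨κ ∘ b', ?_⟩
  rw [← hb', tyC_eq_iff]
  have := st_symm (emb_st hκ (Sum.elim (f ∘ t.2.2.1) b'))
  rw [comp_sum_elim] at this
  exact this

/-- One step: decide one task. -/
theorem decide_one {N L : Type} {M0 : RS σ M} [Countable L] {A : RS σ L} (hA : InC M0 A)
    (f : N → L) (t : Task σ N) :
    ∃ (L' : Type) (_ : Countable L') (A' : RS σ L') (e : L → L'), InC M0 A' ∧ Emb A A' e ∧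
      Decides M0 t A' (e ∘ f) := by
  by_cases hex : ∃ (N' : Type) (A' : RS σ N') (g : L → N'), InC M0 A' ∧ Emb A A' g ∧
      ∃ b : Fin t.2.1 → N', tyC A' (Sum.elim (g ∘ f ∘ t.2.2.1) b) = t.2.2.2
  · obtain ⟨N', A', g, hA', hg, b, hb⟩ := hex
    obtain ⟨N₂, hN₂, A₂, j, f', t', h1, h2, h3, h4, h5⟩ := exists_countable_sub hA' hg b
    refine ⟨N₂, hN₂, A₂, f', h1, h3, ?_⟩
    intro N₃ A₃ _ g₃ _ _
    refine ⟨t', ?_⟩
    rw [← hb, tyC_eq_iff]
    have := emb_st h2 (Sum.elim (f' ∘ f ∘ t.2.2.1) t')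
    have h6 : j ∘ f' ∘ f ∘ t.2.2.1 = g ∘ f ∘ t.2.2.1 := by
      rw [← h4]
      rfl
    rw [comp_sum_elim, h5, h6] at this
    exact this
  · refine ⟨L, inferInstance, A, id, hA, emb_id A, ?_⟩
    intro N' A' hA' g hg hb
    exact (hex ⟨N', A', g, hA', hg, hb⟩).elim

/-- A countable structure of the class over a base. -/
structure Ob (M0 : RS σ M) {N : Type} (A0 : RS σ N) where
  /-- the points -/
  L : Type
  /-- countable -/
  cnt : Countable L
  /-- the structure -/
  A : RS σ L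
  /-- in the class -/
  inC : InC M0 A
  /-- the map from the base -/
  f : N → L
  /-- it is an embedding -/
  hf : Emb A0 A f

/-- Decide all the tasks over a countable structure. -/
theorem decide_all {N : Type} {M0 : RS σ M} [Countable N] {A0 : RS σ N} (hA0 : InC M0 A0) :
    ∃ (L' : Type) (_ : Countable L') (A' : RS σ L') (e : N → L'), InC M0 A' ∧ Emb A0 A' e ∧
      ∀ t : Task σ N, Decides M0 t A' e := by
  obtain ⟨tsk, htsk⟩ := exists_surjective_nat (Task σ N)
  have step : ∀ (t : Task σ N) (X : Ob M0 A0), ∃ (X' : Ob M0 A0) (e : X.L → X'.L),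
      Emb X.A X'.A e ∧ X'.f = e ∘ X.f ∧ Decides M0 t X'.A X'.f := by
    intro t X
    have := X.cnt
    obtain ⟨L', hL', A', e, h1, h2, h3⟩ := decide_one X.inC X.f t
    exact ⟨⟨L', hL', A', h1, e ∘ X.f, emb_comp X.hf h2⟩, e, h2, rfl, h3⟩
  choose nxt e he hf hD using step
  let sq : ℕ → Ob M0 A0 := fun i => Nat.rec ⟨N, inferInstance, A0, hA0, id, emb_id A0⟩
    (fun i X => nxt (tsk i) X) i
  have hsq : ∀ i, sq (i + 1) = nxt (tsk i) (sq i) := fun _ => rfl
  obtain ⟨L', hL', A', κ, h1, h2, h3, _⟩ := chain_limit (M0 := M0) (K := fun i => (sq i).L)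
    (fun i => (sq i).A) (fun i => e (tsk i) (sq i)) (fun i => he (tsk i) (sq i))
    (fun i => (sq i).cnt) (fun i => (sq i).inC)
  have hκ : ∀ i, κ i ∘ (sq i).f = κ 0 := by
    intro i
    induction i with
    | zero => rfl
    | succ i ih =>
      rw [← ih]
      have h4 : (sq (i + 1)).f = e (tsk i) (sq i) ∘ (sq i).f := hf (tsk i) (sq i)
      rw [h4]
      funext x
      exact h3 i ((sq i).f x)
  refine ⟨L', hL', A', κ 0, h1, h2 0, ?_⟩
  intro t
  obtain ⟨i, rfl⟩ := htsk t
  have h5 : Decides M0 (tsk i) (sq (i + 1)).A (sq (i + 1)).f := hD (tsk i) (sq i)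
  have h6 := decides_of_emb h5 (h2 (i + 1))
  rw [hκ (i + 1)] at h6
  exact h6

/-- every countable structure of the class embeds in a countable existentially closed one -/
theorem exists_ec {M0 : RS σ M} [Countable K] {B : RS σ K} (hB : InC M0 B) :
    ∃ (K' : Type) (_ : Countable K') (B' : RS σ K') (f : K → K'), EC M0 B' ∧ Emb B B' f := by
  have step : ∀ (X : Ob M0 B), ∃ (X' : Ob M0 B) (e : X.L → X'.L),
      Emb X.A X'.A e ∧ ∀ t : Task σ X.L, Decides M0 t X'.A e := by
    intro X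
    have := X.cnt
    obtain ⟨L', hL', A', e, h1, h2, h3⟩ := decide_all X.inC
    exact ⟨⟨L', hL', A', h1, e ∘ X.f, emb_comp X.hf h2⟩, e, h2, h3⟩
  choose nxt e he hD using step
  let sq : ℕ → Ob M0 B := fun i => Nat.rec ⟨K, inferInstance, B, hB, id, emb_id B⟩
    (fun _ X => nxt X) i
  obtain ⟨L', hL', A', κ, h1, h2, h3, h4⟩ := chain_limit (M0 := M0) (K := fun i => (sq i).L)
    (fun i => (sq i).A) (fun i => e (sq i)) (fun i => he (sq i))
    (fun i => (sq i).cnt) (fun i => (sq i).inC)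
  refine ⟨L', hL', A', κ 0, ⟨h1, ?_⟩, h2 0⟩
  -- finitely many points lie in one member of the chain
  have hup : ∀ i k (x : (sq i).L), ∃ x' : (sq (i + k)).L, κ (i + k) x' = κ i x := by
    intro i k
    induction k with
    | zero => exact fun x => ⟨x, rfl⟩
    | succ k ih =>
      intro x
      obtain ⟨x', hx'⟩ := ih x
      exact ⟨e (sq (i + k)) x', by rw [← hx']; exact h3 (i + k) x'⟩
  have hfin : ∀ (n : ℕ) (a : Fin n → L'), ∃ (i : ℕ) (a' : Fin n → (sq i).L),
      κ i ∘ a' = a := by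
    intro n a
    choose i x hx using fun j => h4 (a j)
    have hle : ∀ j, i j ≤ Finset.univ.sup i := fun j => Finset.le_sup (Finset.mem_univ j)
    have hex : ∀ j, ∃ x' : (sq (Finset.univ.sup i)).L, κ (Finset.univ.sup i) x' = a j := by
      intro j
      obtain ⟨k, hk⟩ := Nat.exists_eq_add_of_le (hle j)
      obtain ⟨x', hx'⟩ := hup (i j) k (x j)
      rw [hk]
      exact ⟨x', by rw [hx', hx j]⟩
    choose a' ha' using hex
    exact ⟨Finset.univ.sup i, a', funext ha'⟩
  intro N' A'' hA'' g hg n m a b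
  obtain ⟨i, a', rfl⟩ := hfin n a
  have h5 : Decides M0 (⟨n, m, a', tyC A'' (Sum.elim (g ∘ κ i ∘ a') b)⟩ : Task σ (sq i).L)
    (sq (i + 1)).A (e (sq i)) := hD (sq i) _
  have h6 : κ (i + 1) ∘ e (sq i) = κ i := funext (h3 i)
  obtain ⟨b', hb'⟩ := h5 N' A'' hA'' (g ∘ κ (i + 1)) (emb_comp (h2 (i + 1)) hg) ⟨b, by
    have : (g ∘ κ (i + 1)) ∘ e (sq i) ∘ a' = g ∘ κ i ∘ a' := by
      rw [← h6]
      rfl
    simp only
    rw [this]⟩
  refine ⟨κ (i + 1) ∘ b', ?_⟩
  simp only at hb'
  rw [tyC_eq_iff] at hb'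
  have h7 := emb_st (h2 (i + 1)) (Sum.elim (e (sq i) ∘ a') b')
  rw [comp_sum_elim] at h7
  have h8 : κ (i + 1) ∘ e (sq i) ∘ a' = κ i ∘ a' := by
    rw [← h6]
    rfl
  rw [h8] at h7
  exact st_trans (st_symm hb') h7

/-- existentially closed structures realize all types of the class -/
theorem ec_age {M0 : RS σ M} {B : RS σ K} (hB : EC M0 B) {ι : Type} [Finite ι] (v : ι → M) :
    ∃ w : ι → K, ST M0 B v w := by
  obtain ⟨K', B', f, g, hB', hf, hg⟩ := jep hB.1
  obtain ⟨b', hb'⟩ := ec_finite hB hB' hf (ι := Empty) Empty.elim (g ∘ v)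
  exact ⟨b', st_trans (emb_st hg v) (st_sum_right hb')⟩

end Pool.Agent.Helper89.EA
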