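import Pool.Agent.Helper89.EA.P.B2
import Pool.Agent.Helper89.EA.Defs2

/-!
# Project EA, piece B4a: bridge to Mathlib's first order logic

Hints.  `age_subset_iff`: for a relational language every finite subset of `N` is (the universe of)
a finitely generated substructure, and all finitely generated structures are finite
(`FirstOrder.Language.Structure.fg_iff_finite`, `Substructure.fg_iff_finite`,
`Language.IsRelational`); a finite structure is enumerated by a tuple `Fin n → N`, and a tuple of
the same type in `M` gives an embedding (injective because of the equality pattern, and relations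
are preserved in both directions).  Conversely a tuple `v : Fin n → N` generates the finite
substructure with universe `Set.range v` (closure of a set in a relational language is the set:
`Substructure.closure_eq_of_isRelational`).

-/

namespace Pool.Agent.Helper89.EA

open FirstOrder FirstOrder.Language CategoryTheory

variable (L : FirstOrder.Language.{0, 0}) [L.IsRelational] [Finite (Σ n, L.Relations n)]

theorem rsOf_toStr {N : Type} (A : RS (sigOf L) N) :
    @rsOf L _ _ N (toStr L A) = A := rfl

theorem age_subset_iff (N M : Type) [L.Structure N] [L.Structure M] :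
    L.age N ⊆ L.age M ↔ InC (rsOf L M) (rsOf L N) := by
  constructor
  · intro h n v
    let S : L.Substructure N := Substructure.closure L (Set.range v)
    have hS : S.FG := Substructure.fg_closure (Set.finite_range v)
    have hmem : (Bundled.of S : Bundled.{0} L.Structure) ∈ L.age N :=
      ⟨(Substructure.fg_iff_structure_fg S).1 hS, ⟨S.subtype⟩⟩
    obtain ⟨_, ⟨g⟩⟩ := h hmem
    have hv : ∀ i, v i ∈ S := fun i => Substructure.subset_closure ⟨i, rfl⟩
    let v' : Fin n → S := fun i => ⟨v i, hv i⟩
    refine ⟨fun i => g (v' i), ?_, ?_⟩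
    · intro i j
      constructor
      · intro hij
        have : v' i = v' j := Subtype.ext hij
        exact congrArg g this
      · intro hij
        exact congrArg Subtype.val (g.injective hij)
    · intro s x
      have h1 : Structure.RelMap s.2 (v ∘ x) ↔ Structure.RelMap s.2 (v' ∘ x) :=
        S.subtype.map_rel s.2 (v' ∘ x)
      have h2 : Structure.RelMap s.2 (g ∘ (v' ∘ x)) ↔ Structure.RelMap s.2 (v' ∘ x) :=
        g.map_rel s.2 (v' ∘ x)
      exact h1.trans h2.symm
  · rintro h B ⟨hB, ⟨f⟩⟩
    have hfin : Finite B := Structure.fg_iff_finite.1 hB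
    obtain ⟨n, ⟨e⟩⟩ := Finite.exists_equiv_fin B
    obtain ⟨w, hw⟩ := h n (fun i => f (e.symm i))
    refine ⟨hB, ⟨⟨⟨fun b => w (e b), ?_⟩, ?_, ?_⟩⟩⟩
    · intro b b' hbb
      have h1 := (hw.1 (e b) (e b')).2 hbb
      have h2 := f.injective h1
      rw [e.symm_apply_apply, e.symm_apply_apply] at h2
      exact h2
    · intro n F
      exact isEmptyElim F
    · intro n R x
      have h1 := hw.2 ⟨n, R⟩ (fun i => e (x i))
      have h2 : (fun i => f (e.symm (e (x i)))) = f ∘ x := by
        funext i
        show f (e.symm (e (x i))) = f (x i)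
        rw [e.symm_apply_apply]
      have h3 : Structure.RelMap R (f ∘ x) ↔ Structure.RelMap R x := f.map_rel R x
      have h4 : Structure.RelMap R (fun i => f (e.symm (e (x i)))) ↔
          Structure.RelMap R (fun i => w (e (x i))) := h1
      rw [h2] at h4
      exact h4.symm.trans h3

theorem cellular_iff (N : Type) [L.Structure N] : Cellular L N ↔ Cell (rsOf L N) := by
  constructor
  · rintro ⟨K, n, k, c, h1, h2, h3, h4, h5⟩
    refine ⟨K, n, k, c, h1, h2, h3, h4, fun i τ => ?_⟩
    obtain ⟨g, hg1, hg2⟩ := h5 i τ
    exact ⟨g.toEquiv, fun s x => g.map_rel s.2 x, hg1, hg2⟩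
  · rintro ⟨K, n, k, c, h1, h2, h3, h4, h5⟩
    refine ⟨K, n, k, c, h1, h2, h3, h4, fun i τ => ?_⟩
    obtain ⟨g, hg0, hg1, hg2⟩ := h5 i τ
    refine ⟨⟨g, ?_, ?_⟩, hg1, hg2⟩
    · intro n F
      exact isEmptyElim F
    · intro n R x
      exact hg0 ⟨n, R⟩ x

theorem cellularAge_iff (M : Type) [L.Structure M] : CellularAge L M ↔ CellAge (rsOf L M) := by
  constructor
  · intro h N _ A hA
    let _ : L.Structure N := toStr L A
    have h1 : L.age N ⊆ L.age M := (age_subset_iff L N M).2 hA
    exact (cellular_iff L N).1 (h N h1)
  · intro h N _ _ hN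
    exact (cellular_iff L N).2 (h N _ ((age_subset_iff L N M).1 hN))

/-- an isomorphism in our sense gives elementary equivalence -/
theorem elemEquiv_of_emb {N N' : Type} [L.Structure N] [L.Structure N'] (e : N ≃ N')
    (he : Emb (rsOf L N) (rsOf L N') e) : L.ElementarilyEquivalent N N' := by
  let g : N ≃[L] N' := ⟨e, fun F => isEmptyElim F, fun {n} R x => by
    exact (he.2 ⟨n, R⟩ x).symm⟩
  exact g.toElementaryEmbedding.elementarilyEquivalent

end Pool.Agent.Helper89.EA
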