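import Pool.Agent.Helper89.EA.P.B2
import Pool.Agent.Helper89.EA.Defs2

/-!
# Project EA, piece B4c: definable predicates are given by formulas

`foc_formula`: induction on `FOc`; for `pat` let `D` be the finite set of diagrams
`{(a, x) | a.ev A (v ∘ x)} : Set (Σ a : At σ, Fin a.ar → ι)` of the tuples satisfying `P` and take
the disjunction over `D` (`BoundedFormula.iSup` over a finite type) of the conjunctions
(`BoundedFormula.iInf`) of the atomic formulas (relation symbols, `=`) and their negations; for `ex`
use `Formula.iExs` or relabelings (`BoundedFormula.relabel`, `Formula.iExs`, `realize_iExs`).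
-/

namespace Pool.Agent.Helper89.EA

open FirstOrder FirstOrder.Language CategoryTheory

variable (L : FirstOrder.Language.{0, 0})

/-- The atomic statements about a tuple indexed by `ι`. -/
abbrev Atm (ι : Type) : Type := (ι × ι) ⊕ (Σ s : (Σ n, L.Relations n), (Fin s.1 → ι))

/-- The atomic formula of an atomic statement. -/
def atmFormula {ι : Type} : Atm L ι → L.Formula ι
  | .inl p => Term.equal (Term.var p.1) (Term.var p.2)
  | .inr q => Relations.formula q.1.2 (fun l => Term.var (q.2 l))

variable [L.IsRelational] [Finite (Σ n, L.Relations n)]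

/-- The truth value of an atomic statement. -/
def atmEv {ι N : Type} (A : RS (sigOf L) N) (v : ι → N) : Atm L ι → Prop
  | .inl p => v p.1 = v p.2
  | .inr q => A q.1 (v ∘ q.2)

theorem atmFormula_realize {ι : Type} (N : Type) [L.Structure N] (v : ι → N) (a : Atm L ι) :
    (atmFormula L a).Realize v ↔ atmEv L (rsOf L N) v a := by
  rcases a with p | q
  · simp [atmFormula, atmEv, Formula.realize_equal]
  · simp only [atmFormula, atmEv, Formula.realize_rel, Term.realize_var, rsOf]
    rfl

theorem st_of_atmEv {ι N N' : Type} {A : RS (sigOf L) N} {A' : RS (sigOf L) N'} {v : ι → N}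
    {w : ι → N'} (h : atmEv L A v = atmEv L A' w) : ST A A' v w := by
  refine ⟨fun i j => ?_, fun s x => ?_⟩
  · have h1 := congrFun h (Sum.inl (i, j))
    simp only [atmEv] at h1
    exact h1.to_iff
  · have h1 := congrFun h (Sum.inr ⟨s, x⟩)
    simp only [atmEv] at h1
    exact h1.to_iff

theorem foc_formula {ι : Type} {P : ∀ N : Type, RS (sigOf L) N → (ι → N) → Prop}
    (h : FOc (sigOf L) P) : ∃ φ : L.Formula ι, ∀ (N : Type) [L.Structure N] (v : ι → N),
      φ.Realize v ↔ P N (rsOf L N) v := by
  classical
  induction h with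
  | @pat ι _ P hP =>
    let good : Set (Atm L ι → Prop) := {D | ∃ (N : Type) (A : RS (sigOf L) N) (v : ι → N),
      P N A v ∧ atmEv L A v = D}
    refine ⟨Formula.iSup (fun D : good => Formula.iInf (fun a : Atm L ι =>
      if D.1 a then atmFormula L a else (atmFormula L a).not)), ?_⟩
    intro N _ v
    rw [Formula.realize_iSup]
    simp only [Formula.realize_iInf]
    have key : ∀ D : good, (∀ a : Atm L ι, Formula.Realize
        (if D.1 a then atmFormula L a else (atmFormula L a).not) v) ↔
        atmEv L (rsOf L N) v = D.1 := by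
      intro D
      constructor
      · intro h1
        funext a
        have h2 := h1 a
        split_ifs at h2 with h3
        · rw [atmFormula_realize] at h2
          exact propext ⟨fun _ => h3, fun _ => h2⟩
        · rw [Formula.realize_not, atmFormula_realize] at h2
          exact propext ⟨fun h4 => absurd h4 h2, fun h4 => absurd h4 h3⟩
      · intro h1 a
        split_ifs with h3
        · rw [atmFormula_realize, h1]; exact h3
        · rw [Formula.realize_not, atmFormula_realize, h1]; exact h3
    constructor
    · rintro ⟨D, hD⟩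
      rw [key] at hD
      obtain ⟨N', A', v', hP', hv'⟩ := D.2
      have h1 : ST (rsOf L N) A' v v' := st_of_atmEv L (hD.trans hv'.symm)
      exact (hP _ _ _ _ _ _ h1).2 hP'
    · intro h1
      exact ⟨⟨atmEv L (rsOf L N) v, N, rsOf L N, v, h1, rfl⟩, (key _).2 rfl⟩
  | not P h ih =>
    obtain ⟨φ, hφ⟩ := ih
    refine ⟨φ.not, ?_⟩
    intro N _ v
    rw [Formula.realize_not, hφ]
  | and P Q hP hQ ihP ihQ =>
    obtain ⟨φ, hφ⟩ := ihP
    obtain ⟨ψ, hψ⟩ := ihQ
    refine ⟨φ ⊓ ψ, ?_⟩
    intro N _ v
    rw [Formula.realize_inf, hφ, hψ]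
  | @ex ι κ _ P h ih =>
    obtain ⟨φ, hφ⟩ := ih
    refine ⟨Formula.iExs κ φ, ?_⟩
    intro N _ v
    rw [Formula.realize_iExs]
    simp only [hφ]

end Pool.Agent.Helper89.EA
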