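import Pool.Agent.Helper89.EA.P.B4a
import Pool.Agent.Helper89.EA.P.B4c
import Pool.Agent.Helper89.EA.P.B3a

/-!
# Project EA, piece B4b: from `ManyS` to `Many`

Proof.  If `M` is empty then the structures in `InC M0` are all empty and isomorphic, so by
`foc_iso` the hypothesis is contradictory (take `n = 1`, `S = ∅` and `S = {0}`).

Let `M` be nonempty.  By `foc_formula` every `Ψ i` is a sentence `ψ i` (formula in the variables
`Empty`).  Let `S : Set ℕ`.  The theory `T S` says that every finite tuple of `M` has a copy, that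
every finite tuple has the type of a tuple of `M`, and `ψ i` for `i ∈ S`, `¬ ψ i` for `i ∉ S`.
It is finitely satisfiable by `ManyS`, so by compactness and the downward Löwenheim-Skolem theorem
it has a countable model; its age is the age of `M` (`age_subset_iff`).
-/

namespace Pool.Agent.Helper89.EA

open FirstOrder FirstOrder.Language CategoryTheory

variable (L : FirstOrder.Language.{0, 0}) [L.IsRelational] [Finite (Σ n, L.Relations n)]

/-- a definable predicate without variables is given by a sentence -/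
theorem foc_sentence {P : ∀ N : Type, RS (sigOf L) N → (Empty → N) → Prop}
    (h : FOc (sigOf L) P) : ∃ φ : L.Sentence, ∀ (N : Type) [L.Structure N],
      N ⊨ φ ↔ P N (rsOf L N) Empty.elim := by
  obtain ⟨φ, hφ⟩ := foc_formula L h
  refine ⟨φ, ?_⟩
  intro N _
  have e : (default : Empty → N) = Empty.elim := Subsingleton.elim _ _
  have h1 := hφ N (default : Empty → N)
  rw [e] at h1
  have h2 : N ⊨ φ ↔ φ.Realize (default : Empty → N) := Iff.rfl
  rw [h2, e]
  exact h1

/-- the statement that a tuple of `M` has a copy -/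
theorem foc_copy {σ : Sig} {M : Type} (M0 : RS σ M) (n : ℕ) (a : Fin n → M) :
    FOc σ (ι := Empty) (fun N A _ => ∃ w : Fin n → N, ST A M0 w a) := by
  refine foc_congr (FOc.ex (κ := Fin n) (fun N A (v : Empty ⊕ Fin n → N) =>
    ST A M0 (v ∘ Sum.inr) a) ?_) fun N A v => ?_
  · exact foc_ren (foc_st M0 a) Sum.inr
  · exact Iff.rfl

/-- the statement that all tuples of length `n` are copies of tuples of `M` -/
theorem foc_allcopy {σ : Sig} {M : Type} (M0 : RS σ M) (n : ℕ) :
    FOc σ (ι := Empty) (fun N A _ => ∀ w : Fin n → N, ∃ a : Fin n → M, ST A M0 w a) := by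
  refine foc_congr (foc_all (κ := Fin n) (P := fun N A (v : Empty ⊕ Fin n → N) =>
    ∃ a : Fin n → M, ST A M0 (v ∘ Sum.inr) a) ?_) fun N A v => ?_
  · refine FOc.pat _ fun N N' A A' v w hvw => exists_congr fun a => ?_
    have h1 := st_comp hvw Sum.inr
    exact ⟨fun h => st_trans (st_symm h1) h, fun h => st_trans h1 h⟩
  · exact Iff.rfl

/-- a satisfiable theory in a countable relational language has a countable model -/
theorem exists_countable_model {T : L.Theory} (h : T.IsSatisfiable) :
    ∃ N : Bundled.{0} L.Structure, Countable N ∧ ∀ φ ∈ T, (N : Type) ⊨ φ := by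
  obtain ⟨N⟩ := h
  by_cases hc : Countable N
  · exact ⟨Bundled.of N, hc, fun φ hφ => Theory.realize_sentence_of_mem (M := N) T hφ⟩
  · have hinf : Infinite N := by
      rcases finite_or_infinite N with hf | hi
      · exact absurd (Finite.to_countable : Countable N) hc
      · exact hi
    have hL : L.card ≤ Cardinal.aleph0 := by
      have : Countable L.Symbols := by
        have h1 : Countable (Σ n, L.Functions n) := by
          have : IsEmpty (Σ n, L.Functions n) := ⟨fun x => isEmptyElim x.2⟩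
          infer_instance
        have h2 : Countable (Σ n, L.Relations n) := Finite.to_countable
        exact (inferInstance : Countable ((Σ n, L.Functions n) ⊕ (Σ n, L.Relations n)))
      exact Cardinal.mk_le_aleph0_iff.2 this
    obtain ⟨S, -, hS⟩ := exists_elementarySubstructure_card_eq L (M := N) ∅ Cardinal.aleph0.{0}
      le_rfl (by simp) (by simpa using hL) (by simp)
    refine ⟨Bundled.of S, ?_, fun φ hφ => ?_⟩
    · have : Cardinal.mk S ≤ Cardinal.aleph0 := by
        have h3 : Cardinal.lift.{0} (Cardinal.mk S) = Cardinal.lift.{0} Cardinal.aleph0.{0} := hS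
        simp only [Cardinal.lift_id] at h3
        exact h3.le
      exact Cardinal.mk_le_aleph0_iff.1 this
    · exact (ElementarySubstructure.realize_sentence S φ).2 (Theory.realize_sentence_of_mem T hφ)

/-- if `M` is empty then `ManyS` fails -/
theorem not_manyS_of_isEmpty {σ : Sig} {M : Type} [IsEmpty M] (M0 : RS σ M) : ¬ ManyS M0 := by
  rintro ⟨Ψ, hΨ, h⟩
  obtain ⟨N, A, hA, -, hN⟩ := h 1 Set.univ 0 Fin.elim0
  obtain ⟨N', A', hA', -, hN'⟩ := h 1 ∅ 0 Fin.elim0
  have e1 : IsEmpty N := ⟨fun x => by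
    obtain ⟨w, -⟩ := hA 1 (fun _ => x)
    exact isEmptyElim (w 0)⟩
  have e2 : IsEmpty N' := ⟨fun x => by
    obtain ⟨w, -⟩ := hA' 1 (fun _ => x)
    exact isEmptyElim (w 0)⟩
  let e : N ≃ N' := Equiv.equivOfIsEmpty N N'
  have he : Emb A A' e := by
    refine st_small' hA hA' fun x => ?_
    exact isEmptyElim (x ⟨0, lt_of_lt_of_le (by norm_num) σ.hr⟩)
  have h3 := foc_iso (hΨ 0) e he Empty.elim
  have e3 : (e ∘ Empty.elim : Empty → N') = Empty.elim := Subsingleton.elim _ _
  rw [e3] at h3
  have h4 := hN 0 (by norm_num)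
  have h5 := hN' 0 (by norm_num)
  exact (h5.1 (h3.1 (h4.2 (Set.mem_univ 0))))

theorem many_of_manyS (M : Type) [L.Structure M] [Countable M] (h : ManyS (rsOf L M)) :
    Many L M := by
  classical
  rcases isEmpty_or_nonempty M with hM | ⟨⟨x0⟩⟩
  · exact absurd h (not_manyS_of_isEmpty _)
  obtain ⟨Ψ, hΨ, hS⟩ := h
  choose ψ hψ using fun i => foc_sentence L (hΨ i)
  choose φ hφ using fun (p : Σ n : ℕ, (Fin n → M)) =>
    foc_sentence L (foc_copy (rsOf L M) p.1 p.2)
  choose U hU using fun n => foc_sentence L (foc_allcopy (rsOf L M) n)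
  let T : Set ℕ → L.Theory := fun S =>
    {x | (∃ p, x = φ p) ∨ (∃ n, x = U n) ∨ (∃ i ∈ S, x = ψ i) ∨ (∃ i, i ∉ S ∧ x = (ψ i).not)}
  -- each sentence of `T S` holds when finitely many conditions hold
  have key : ∀ (S : Set ℕ) (x : L.Sentence), x ∈ T S → ∃ (n : ℕ) (D : Finset M),
      ∀ (N : Type) [L.Structure N], InC (rsOf L M) (rsOf L N) →
        (∀ (k : ℕ) (a : Fin k → M), (∀ i, a i ∈ D) →
          ∃ b : Fin k → N, ST (rsOf L N) (rsOf L M) b a) →
        (∀ i < n, (Ψ i N (rsOf L N) Empty.elim ↔ i ∈ S)) → N ⊨ x := by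
    intro S x hx
    rcases hx with ⟨p, rfl⟩ | ⟨n, rfl⟩ | ⟨i, hi, rfl⟩ | ⟨i, hi, rfl⟩
    · refine ⟨0, Finset.univ.image p.2, ?_⟩
      intro N _ _ h2 _
      rw [hφ]
      exact h2 p.1 p.2 fun i => Finset.mem_image_of_mem _ (Finset.mem_univ i)
    · refine ⟨0, ∅, ?_⟩
      intro N _ h1 _ _
      rw [hU]
      exact h1 n
    · refine ⟨i + 1, ∅, ?_⟩
      intro N _ _ _ h3
      rw [hψ]
      exact (h3 i (Nat.lt_succ_self i)).2 hi
    · refine ⟨i + 1, ∅, ?_⟩
      intro N _ _ _ h3
      rw [Sentence.realize_not, hψ]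
      exact fun h4 => hi ((h3 i (Nat.lt_succ_self i)).1 h4)
  have hsat : ∀ S, (T S).IsSatisfiable := by
    intro S
    rw [Theory.isSatisfiable_iff_isFinitelySatisfiable]
    intro T0 hT0
    choose! n D hnD using key S
    let n1 : ℕ := T0.sup n
    let D1 : Finset M := insert x0 (T0.biUnion D)
    let a1 : Fin D1.card → M := fun i => (D1.equivFin.symm i : M)
    obtain ⟨N, A, hA, ⟨b, hb⟩, hN⟩ := hS n1 S D1.card a1
    let i1 : L.Structure N := toStr L A
    have hA0 : @rsOf L _ _ N i1 = A := rsOf_toStr L A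
    have hne : Nonempty N := ⟨b (D1.equivFin ⟨x0, Finset.mem_insert_self _ _⟩)⟩
    have hmod : N ⊨ (↑T0 : L.Theory) := by
      rw [Theory.model_iff]
      intro x hx
      have hx' : x ∈ T0 := hx
      refine hnD x (hT0 hx) N ?_ ?_ ?_
      · rw [hA0]; exact hA
      · intro k a ha
        have ha1 : ∀ i, a i ∈ D1 := fun i =>
          Finset.mem_insert_of_mem (Finset.mem_biUnion.2 ⟨x, hx', ha i⟩)
        refine ⟨fun i => b (D1.equivFin ⟨a i, ha1 i⟩), ?_⟩
        have h1 := st_comp hb (fun i => D1.equivFin ⟨a i, ha1 i⟩)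
        have e1 : a1 ∘ (fun i => D1.equivFin ⟨a i, ha1 i⟩) = a := by
          funext i
          simp [a1]
        rw [e1] at h1
        rw [hA0]
        exact h1
      · intro i hi
        rw [hA0]
        exact hN i (lt_of_lt_of_le hi (Finset.le_sup hx'))
    exact Theory.Model.isSatisfiable N
  choose F hF1 hF2 using fun S => exists_countable_model L (hsat S)
  refine ⟨F, hF1, fun S => ?_, fun S S' hne heq => ?_⟩
  · apply le_antisymm
    · refine (age_subset_iff L _ _).2 ?_
      intro n w
      have h1 := hF2 S (U n) (Or.inr (Or.inl ⟨n, rfl⟩))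
      rw [hU] at h1
      exact h1 w
    · refine (age_subset_iff L _ _).2 ?_
      intro n a
      have h1 := hF2 S (φ ⟨n, a⟩) (Or.inl ⟨⟨n, a⟩, rfl⟩)
      rw [hφ] at h1
      obtain ⟨w, hw⟩ := h1
      exact ⟨w, st_symm hw⟩
  · apply hne
    ext i
    have h1 : ((F S : Type) ⊨ ψ i) ↔ i ∈ S := by
      constructor
      · intro h2
        by_contra h3
        have h4 := hF2 S (ψ i).not (Or.inr (Or.inr (Or.inr ⟨i, h3, rfl⟩)))
        rw [Sentence.realize_not] at h4
        exact h4 h2
      · intro h2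
        exact hF2 S (ψ i) (Or.inr (Or.inr (Or.inl ⟨i, h2, rfl⟩)))
    have h1' : ((F S' : Type) ⊨ ψ i) ↔ i ∈ S' := by
      constructor
      · intro h2
        by_contra h3
        have h4 := hF2 S' (ψ i).not (Or.inr (Or.inr (Or.inr ⟨i, h3, rfl⟩)))
        rw [Sentence.realize_not] at h4
        exact h4 h2
      · intro h2
        exact hF2 S' (ψ i) (Or.inr (Or.inr (Or.inl ⟨i, h2, rfl⟩)))
    rw [← h1, ← h1']
    exact (elementarilyEquivalent_iff.1 heq) (ψ i)

end Pool.Agent.Helper89.EA
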