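import Pool.Agent.Helper89.EA.P.B1b

/-!
# Project EA, piece B7: stable ages have no ladders

Proof.  A ladder of length `n` in a structure of the class is a finite tuple, hence it has the type
of a tuple of `M0`: so ladders of all lengths for a relation symbol give `OP M0 k l` with
`k = card Y`, `l = card X`, `p = card C` (use `Finite.equivFin`).  For the equality atom ladders of
length `≥ 4` do not exist: `x 0 = y 1`, `x 0 = y 3`, `x 2 = y 3`, `x 2 ≠ y 1` (and the other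
possible arguments of the equation are even easier).  Descending ladders are reversed
(`i ↦ n - 1 - i` on `Fin n`).
-/

namespace Pool.Agent.Helper89.EA

variable {σ : Sig} {M N : Type}

/-- there is a ladder of length `n` for the atom `a` with arguments `α` -/
def LadP (M0 : RS σ M) (X Y C : Type) (n : ℕ)
    (p : Σ a : At σ, (Fin a.ar → (X ⊕ Y) ⊕ C)) : Prop :=
  ∃ (N : Type) (A : RS σ N), InC M0 A ∧ ∃ (x : Fin n → X → N) (y : Fin n → Y → N) (c : C → N),
    ∀ i j, i ≠ j → (p.1.ev A (Sum.elim (Sum.elim (x i) (y j)) c ∘ p.2) ↔ i < j)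

theorem ladP_mono {M0 : RS σ M} {X Y C : Type} {m n : ℕ} (h : m ≤ n)
    {p : Σ a : At σ, (Fin a.ar → (X ⊕ Y) ⊕ C)} (hp : LadP M0 X Y C n p) :
    LadP M0 X Y C m p := by
  obtain ⟨N, A, hA, x, y, c, hl⟩ := hp
  refine ⟨N, A, hA, fun i => x (Fin.castLE h i), fun j => y (Fin.castLE h j), c, ?_⟩
  intro i j hij
  have := hl (Fin.castLE h i) (Fin.castLE h j)
    (fun e => hij (Fin.castLE_injective h e))
  rw [this]
  exact Iff.rfl

theorem ladP_rel {M0 : RS σ M} (hS : Stable M0) {X Y C : Type} [Finite X] [Finite Y] [Finite C]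
    (s : σ.Sy) (α : Fin (σ.ar s) → (X ⊕ Y) ⊕ C)
    (h : ∀ n, LadP M0 X Y C n ⟨At.rel s, α⟩) : False := by
  obtain ⟨l, ⟨eX⟩⟩ := Finite.exists_equiv_fin X
  obtain ⟨k, ⟨eY⟩⟩ := Finite.exists_equiv_fin Y
  obtain ⟨p, ⟨eC⟩⟩ := Finite.exists_equiv_fin C
  refine hS k l ⟨s, p, Sum.map (Sum.map eX eY) eC ∘ α, fun n => ?_⟩
  obtain ⟨N, A, hA, x, y, c, hl⟩ := h n
  obtain ⟨w, hw⟩ := inC_finite hA (ι := (Fin n × X ⊕ Fin n × Y) ⊕ C)
    (Sum.elim (Sum.elim (fun q => x q.1 q.2) (fun q => y q.1 q.2)) c)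
  refine ⟨fun i q => w (Sum.inl (Sum.inl (i, eX.symm q))),
    fun j q => w (Sum.inl (Sum.inr (j, eY.symm q))), fun q => w (Sum.inr (eC.symm q)), ?_⟩
  intro i j hij
  rw [← hl i j hij]
  have h1 := st_comp hw (κ := (X ⊕ Y) ⊕ C)
    (Sum.map (Sum.map (fun q => (i, q)) (fun q => (j, q))) id)
  have h2 := h1.2 s α
  have e1 : ((Sum.elim (Sum.elim (fun q : Fin n × X => x q.1 q.2) (fun q : Fin n × Y => y q.1 q.2)) c
      ∘ Sum.map (Sum.map (fun q => (i, q)) (fun q => (j, q))) id) ∘ α)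
      = Sum.elim (Sum.elim (x i) (y j)) c ∘ α := by
    funext t
    simp only [Function.comp_apply]
    rcases α t with (q | q) | q <;> rfl
  have e2 : ((w ∘ Sum.map (Sum.map (fun q => (i, q)) (fun q => (j, q))) id) ∘ α)
      = Sum.elim (Sum.elim (fun q => w (Sum.inl (Sum.inl (i, eX.symm q))))
        (fun q => w (Sum.inl (Sum.inr (j, eY.symm q))))) (fun q => w (Sum.inr (eC.symm q)))
        ∘ (Sum.map (Sum.map eX eY) eC ∘ α) := by
    funext t
    simp only [Function.comp_apply]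
    rcases α t with (q | q) | q <;> simp
  rw [e1, e2] at h2
  exact h2.symm

theorem ladP_eq_aux {X Y C : Type} (u v : (X ⊕ Y) ⊕ C) (x : Fin 4 → X → N) (y : Fin 4 → Y → N)
    (c : C → N) (hl : ∀ i j, i ≠ j → (Sum.elim (Sum.elim (x i) (y j)) c u =
      Sum.elim (Sum.elim (x i) (y j)) c v ↔ i < j)) : False := by
  have h01 := (hl 0 1 (by decide)).2 (by decide)
  have h03 := (hl 0 3 (by decide)).2 (by decide)
  have h23 := (hl 2 3 (by decide)).2 (by decide)
  have h12 := (hl 1 2 (by decide)).2 (by decide)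
  have n10 := mt (hl 1 0 (by decide)).1 (by decide)
  have n21 := mt (hl 2 1 (by decide)).1 (by decide)
  rcases u with (q | q) | q <;> rcases v with (q' | q') | q' <;>
    simp only [Sum.elim_inl, Sum.elim_inr] at h01 h03 h23 h12 n10 n21
  · exact n10 h12
  · exact n21 (h23.trans (h03.symm.trans h01))
  · exact n10 h12
  · exact n21 (h01.trans (h03.symm.trans h23))
  · exact n21 h01
  · exact n21 h01
  · exact n10 h12
  · exact n21 h01
  · exact n10 h12

theorem ladP_eq {M0 : RS σ M} {X Y C : Type}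
    (α : Fin (At.eq : At σ).ar → (X ⊕ Y) ⊕ C)
    (h : LadP M0 X Y C 4 ⟨At.eq, α⟩) : False := by
  obtain ⟨N, A, _, x, y, c, hl⟩ := h
  exact ladP_eq_aux (α (0 : Fin 2)) (α (1 : Fin 2)) x y c hl

/-- a uniform bound on the length of the ladders -/
theorem lad_bound {M0 : RS σ M} (hS : Stable M0) (X Y C : Type) [Finite X] [Finite Y] [Finite C] :
    ∃ n : ℕ, ∀ (N : Type) (A : RS σ N), InC M0 A → ∀ (a : At σ) (α : Fin a.ar → (X ⊕ Y) ⊕ C)
      (x : Fin n → X → N) (y : Fin n → Y → N) (c : C → N),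
      ¬ ((∀ i j, i ≠ j → (a.ev A (Sum.elim (Sum.elim (x i) (y j)) c ∘ α) ↔ i < j)) ∨
        (∀ i j, i ≠ j → (a.ev A (Sum.elim (Sum.elim (x i) (y j)) c ∘ α) ↔ j < i))) := by
  have key : ∀ p : (Σ a : At σ, (Fin a.ar → (X ⊕ Y) ⊕ C)), ∃ n, ¬ LadP M0 X Y C n p := by
    rintro ⟨a, α⟩
    by_contra hcon
    push Not at hcon
    cases a with
    | rel s => exact ladP_rel hS s α hcon
    | eq => exact ladP_eq α (hcon 4)
  choose f hf using key
  obtain ⟨n, hn⟩ := (Set.finite_range f).bddAbove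
  refine ⟨n, fun N A hA a α x y c hl => ?_⟩
  have hle : f ⟨a, α⟩ ≤ n := hn ⟨_, rfl⟩
  refine hf ⟨a, α⟩ (ladP_mono hle ?_)
  rcases hl with hl | hl
  · exact ⟨N, A, hA, x, y, c, hl⟩
  · refine ⟨N, A, hA, fun i => x i.rev, fun j => y j.rev, c, fun i j hij => ?_⟩
    have := hl i.rev j.rev (fun e => hij (Fin.rev_injective e))
    rw [this, Fin.rev_lt_rev]

/-- no infinite ladders -/
theorem no_lad {M0 : RS σ M} (hS : Stable M0) {A : RS σ N} (hA : InC M0 A) {X Y C : Type}
    [Finite X] [Finite Y] [Finite C] (a : At σ) (α : Fin a.ar → (X ⊕ Y) ⊕ C)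
    (x : ℕ → X → N) (y : ℕ → Y → N) (c : C → N)
    (h : ∀ i j, i ≠ j → (a.ev A (Sum.elim (Sum.elim (x i) (y j)) c ∘ α) ↔ i < j)) : False := by
  obtain ⟨n, hn⟩ := lad_bound hS X Y C
  refine hn N A hA a α (fun i => x i) (fun j => y j) c (Or.inl fun i j hij => ?_)
  exact h i j (fun e => hij (Fin.ext e))

theorem no_lad' {M0 : RS σ M} (hS : Stable M0) {A : RS σ N} (hA : InC M0 A) {X Y C : Type}
    [Finite X] [Finite Y] [Finite C] (a : At σ) (α : Fin a.ar → (X ⊕ Y) ⊕ C)
    (x : ℕ → X → N) (y : ℕ → Y → N) (c : C → N)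
    (h : ∀ i j, i ≠ j → (a.ev A (Sum.elim (Sum.elim (x i) (y j)) c ∘ α) ↔ j < i)) : False := by
  obtain ⟨n, hn⟩ := lad_bound hS X Y C
  refine hn N A hA a α (fun i => x i) (fun j => y j) c (Or.inr fun i j hij => ?_)
  exact h i j (fun e => hij (Fin.ext e))

/-- if the truth value of the atom is `t` for `i < j` and `t'` for `j < i`, then `t ↔ t'` -/
theorem no_lad_tt {M0 : RS σ M} (hS : Stable M0) {A : RS σ N} (hA : InC M0 A) {X Y C : Type}
    [Finite X] [Finite Y] [Finite C] (a : At σ) (α : Fin a.ar → (X ⊕ Y) ⊕ C)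
    (x : ℕ → X → N) (y : ℕ → Y → N) (c : C → N) (t t' : Prop)
    (h1 : ∀ i j, i < j → (a.ev A (Sum.elim (Sum.elim (x i) (y j)) c ∘ α) ↔ t))
    (h2 : ∀ i j, j < i → (a.ev A (Sum.elim (Sum.elim (x i) (y j)) c ∘ α) ↔ t')) :
    (t ↔ t') := by
  by_cases ht : t
  · by_cases ht' : t'
    · exact ⟨fun _ => ht', fun _ => ht⟩
    · refine (no_lad hS hA a α x y c fun i j hij => ?_).elim
      rcases lt_or_gt_of_ne hij with hlt | hlt
      · exact ⟨fun _ => hlt, fun _ => (h1 i j hlt).2 ht⟩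
      · exact ⟨fun e => absurd ((h2 i j hlt).1 e) ht', fun e => absurd e (not_lt.2 hlt.le)⟩
  · by_cases ht' : t'
    · refine (no_lad' hS hA a α x y c fun i j hij => ?_).elim
      rcases lt_or_gt_of_ne hij with hlt | hlt
      · exact ⟨fun e => absurd ((h1 i j hlt).1 e) ht, fun e => absurd e (not_lt.2 hlt.le)⟩
      · exact ⟨fun _ => hlt, fun _ => (h2 i j hlt).2 ht'⟩
    · exact ⟨fun e => absurd e ht, fun e => absurd e ht'⟩

/-- if the type of `(x i, y j, c)` is constant for `i < j` and constant for `j < i`, then the two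
types are equal -/
theorem no_lad_st {M0 : RS σ M} (hS : Stable M0) {A : RS σ N} (hA : InC M0 A) {X Y C : Type}
    [Finite X] [Finite Y] [Finite C] (x : ℕ → X → N) (y : ℕ → Y → N) (c : C → N)
    (h1 : ∀ i j i' j', i < j → i' < j' →
      ST A A (Sum.elim (Sum.elim (x i) (y j)) c) (Sum.elim (Sum.elim (x i') (y j')) c))
    (h2 : ∀ i j i' j', j < i → j' < i' →
      ST A A (Sum.elim (Sum.elim (x i) (y j)) c) (Sum.elim (Sum.elim (x i') (y j')) c)) :
    ST A A (Sum.elim (Sum.elim (x 0) (y 1)) c) (Sum.elim (Sum.elim (x 1) (y 0)) c) := by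
  rw [st_iff_at]
  intro a α
  refine no_lad_tt hS hA a α x y c _ _ (fun i j hij => ?_) (fun i j hij => ?_)
  · exact (st_iff_at.1 (h1 i j 0 1 hij (by omega))) a α
  · exact (st_iff_at.1 (h2 i j 1 0 hij (by omega))) a α

/-- the same for another structure containing the ladders; here for the truth of one atom that is
eventually constant in each variable: if for every `i` the atom `a(x i, y j, c)` has truth value
`t` for all large `j`, and for every `j` it has truth value `t'` for all large `i`, then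
`t ↔ t'`. -/
theorem no_lad_ev {M0 : RS σ M} (hS : Stable M0) {A : RS σ N} (hA : InC M0 A) {X Y C : Type}
    [Finite X] [Finite Y] [Finite C] (a : At σ) (α : Fin a.ar → (X ⊕ Y) ⊕ C)
    (x : ℕ → X → N) (y : ℕ → Y → N) (c : C → N) (t t' : Prop)
    (h1 : ∀ i, ∃ j0, ∀ j, j0 ≤ j → (a.ev A (Sum.elim (Sum.elim (x i) (y j)) c ∘ α) ↔ t))
    (h2 : ∀ j, ∃ i0, ∀ i, i0 ≤ i → (a.ev A (Sum.elim (Sum.elim (x i) (y j)) c ∘ α) ↔ t')) :
    (t ↔ t') := by
  choose J hJ using h1
  choose I hI using h2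
  let g : ℕ → ℕ × ℕ := fun m => Nat.rec (0, 0) (fun _ q => (max q.1 (I q.2), max q.2 (J q.1))) m
  have gs : ∀ m, g (m + 1) = (max (g m).1 (I (g m).2), max (g m).2 (J (g m).1)) := fun _ => rfl
  have g1 : Monotone (fun m => (g m).1) := monotone_nat_of_le_succ fun m => by
    show (g m).1 ≤ (g (m + 1)).1
    rw [gs]
    exact le_max_left _ _
  have g2 : Monotone (fun m => (g m).2) := monotone_nat_of_le_succ fun m => by
    show (g m).2 ≤ (g (m + 1)).2
    rw [gs]
    exact le_max_left _ _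
  refine no_lad_tt hS hA a α (fun m => x (g m).1) (fun m => y (g m).2) c t t'
    (fun m n hmn => ?_) (fun m n hmn => ?_)
  · refine hJ (g m).1 (g n).2 ?_
    have e1 : (g (m + 1)).2 ≤ (g n).2 := g2 hmn
    have e2 : J (g m).1 ≤ (g (m + 1)).2 := by rw [gs]; exact le_max_right _ _
    exact e2.trans e1
  · refine hI (g n).2 (g m).1 ?_
    have e1 : (g (n + 1)).1 ≤ (g m).1 := g1 hmn
    have e2 : I (g n).2 ≤ (g (n + 1)).1 := by rw [gs]; exact le_max_right _ _
    exact e2.trans e1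

end Pool.Agent.Helper89.EA
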