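import Pool.Agent.Helper89.EA.P.B1b

/-!
# Project EA, piece C1a: there are only countably many cellular structures up to isomorphism

Proof.  Let `A` be cellular with data `K, n, k, c`.  Put `r = σ.r` (bound on the arities) and
enumerate `K` by `Fin q`.  The code of `A` is `q, n, k` and the set of all `(s, x)`, `s : σ.Sy`,
`x : Fin (σ.ar s) → Fin q ⊕ Σ i : Fin n, Fin r × Fin (k i)` such that `A s` holds of the
corresponding tuple (elements of `K`, and elements `c i j l` with `j < r`).  There are only
countably many codes (the set is a set over a finite type).  If two cellular structures have the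
same code, map `K` to `K'` and `c i j l` to `c' i j l`: this is a bijection; it is an isomorphism
since every tuple of length `σ.ar s ≤ r` can be moved by the permutation automorphisms (one `i`
after the other) to one with all `j < r`, simultaneously on both sides.
-/

namespace Pool.Agent.Helper89.EA

variable {σ : Sig}

/-- Coordinates of a cellular structure. -/
abbrev Crd (q n : ℕ) (k : Fin n → ℕ) : Type := Fin q ⊕ (Σ i : Fin n, ℕ × Fin (k i))

/-- Reduced coordinates. -/
abbrev RCrd (r q n : ℕ) (k : Fin n → ℕ) : Type := Fin q ⊕ (Σ i : Fin n, Fin r × Fin (k i))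

/-- Reduced coordinates are coordinates. -/
def rcrd {r q n : ℕ} {k : Fin n → ℕ} : RCrd r q n k → Crd q n k
  | .inl a => .inl a
  | .inr ⟨i, j, l⟩ => .inr ⟨i, (j : ℕ), l⟩

/-- The action of a family of permutations on the coordinates. -/
def actC {q n : ℕ} {k : Fin n → ℕ} (τ : Fin n → Equiv.Perm ℕ) : Crd q n k → Crd q n k
  | .inl a => .inl a
  | .inr ⟨i, j, l⟩ => .inr ⟨i, τ i j, l⟩

lemma actC_one {q n : ℕ} {k : Fin n → ℕ} (z : Crd q n k) : actC (fun _ => 1) z = z := by
  rcases z with a | ⟨i, j, l⟩ <;> rfl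

lemma actC_mul {q n : ℕ} {k : Fin n → ℕ} (τ τ' : Fin n → Equiv.Perm ℕ) (z : Crd q n k) :
    actC τ (actC τ' z) = actC (fun i => τ i * τ' i) z := by
  rcases z with a | ⟨i, j, l⟩ <;> rfl

/-- The codes. -/
abbrev Code (σ : Sig) : Type := Σ (q : ℕ) (n : ℕ) (k : Fin n → ℕ),
  Set (Σ s : σ.Sy, Fin (σ.ar s) → RCrd σ.r q n k)

instance code_countable (σ : Sig) : Countable (Code σ) := by
  have h : ∀ (q n : ℕ) (k : Fin n → ℕ),
      Countable (Set (Σ s : σ.Sy, Fin (σ.ar s) → RCrd σ.r q n k)) := by
    intro q n k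
    have h1 : Finite (Σ s : σ.Sy, Fin (σ.ar s) → RCrd σ.r q n k) := inferInstance
    exact Finite.to_countable
  exact inferInstance

/-- `d` is a code for `A`. -/
def HasCode {N : Type} (A : RS σ N) (d : Code σ) : Prop :=
  ∃ e : Crd d.1 d.2.1 d.2.2.1 ≃ N,
    (∀ (τ : Fin d.2.1 → Equiv.Perm ℕ) (s : σ.Sy) (x : Fin (σ.ar s) → Crd d.1 d.2.1 d.2.2.1),
      A s (e ∘ actC τ ∘ x) ↔ A s (e ∘ x)) ∧
    ∀ (s : σ.Sy) (x : Fin (σ.ar s) → RCrd σ.r d.1 d.2.1 d.2.2.1),
      A s (e ∘ rcrd ∘ x) ↔ (⟨s, x⟩ : Σ s : σ.Sy, Fin (σ.ar s) → RCrd σ.r d.1 d.2.1 d.2.2.1)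
        ∈ d.2.2.2

/-- A permutation of `ℕ` moving a small finite set to an initial segment. -/
lemma exists_perm_lt (J : Finset ℕ) (r : ℕ) (hJ : J.card ≤ r) :
    ∃ τ : Equiv.Perm ℕ, ∀ j ∈ J, τ j < r := by
  have h1 : MulAction.IsMultiplyPretransitive (Equiv.Perm ℕ) ℕ J.card :=
    Equiv.Perm.isMultiplyPretransitive ℕ J.card
  rw [MulAction.isMultiplyPretransitive_iff] at h1
  obtain ⟨g, hg⟩ := h1 (J.equivFin.symm.toEmbedding.trans (Function.Embedding.subtype _))
    Fin.valEmbedding
  refine ⟨g, fun j hj => ?_⟩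
  have h2 := DFunLike.congr_fun hg (J.equivFin ⟨j, hj⟩)
  simp at h2
  rw [h2]
  exact lt_of_lt_of_le (Fin.is_lt _) hJ

/-- Every tuple can be moved to a reduced one. -/
lemma exists_reduce {q n m r : ℕ} {k : Fin n → ℕ} (hm : m ≤ r) (x : Fin m → Crd q n k) :
    ∃ (τ : Fin n → Equiv.Perm ℕ) (y : Fin m → RCrd r q n k), actC τ ∘ x = rcrd ∘ y := by
  classical
  let J : Fin n → Finset ℕ := fun i => Finset.univ.image (fun t : Fin m =>
    match x t with
    | .inl _ => 0
    | .inr z => z.2.1)
  have hJ : ∀ i, (J i).card ≤ r := by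
    intro i
    refine le_trans Finset.card_image_le ?_
    rw [Finset.card_univ, Fintype.card_fin]
    exact hm
  choose τ hτ using fun i => exists_perm_lt (J i) r (hJ i)
  have h : ∀ t, ∃ y : RCrd r q n k, actC τ (x t) = rcrd y := by
    intro t
    rcases hx : x t with a | ⟨i, j, l⟩
    · exact ⟨.inl a, rfl⟩
    · have h1 : j ∈ J i := by
        simp only [J, Finset.mem_image, Finset.mem_univ, true_and]
        exact ⟨t, by rw [hx]⟩
      exact ⟨.inr ⟨i, ⟨τ i j, hτ i j h1⟩, l⟩, rfl⟩
  choose y hy using h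
  exact ⟨τ, y, funext hy⟩

lemma iso_of_hasCode {N N' : Type} {A : RS σ N} {A' : RS σ N'} {d : Code σ} (h : HasCode A d)
    (h' : HasCode A' d) : ∃ e : N ≃ N', Emb A A' e := by
  obtain ⟨e, he, hc⟩ := h
  obtain ⟨e', he', hc'⟩ := h'
  refine ⟨e.symm.trans e', ?_, ?_⟩
  · intro i j
    exact (EmbeddingLike.apply_eq_iff_eq _).symm
  · intro s x
    obtain ⟨τ, y, hy⟩ := exists_reduce (σ.har s) (e.symm ∘ x)
    have h1 := he τ s (e.symm ∘ x)
    have h2 := he' τ s (e.symm ∘ x)
    rw [hy] at h1 h2
    have h3 := hc s y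
    have h4 := hc' s y
    have h5 : (e ∘ e.symm ∘ x) = id ∘ x := by
      funext t
      simp
    have h6 : (e' ∘ e.symm ∘ x) = (e.symm.trans e') ∘ x := by
      funext t
      simp
    rw [h5] at h1
    rw [h6] at h2
    exact h1.symm.trans (h3.trans (h4.symm.trans h2))

lemma exists_hasCode {N : Type} {A : RS σ N} (h : Cell A) : ∃ d, HasCode A d := by
  classical
  obtain ⟨K, n, k, c, hK, hcov, hcK, hinj, hsym⟩ := h
  have hKf : Finite K := hK
  obtain ⟨q, ⟨eK⟩⟩ := Finite.exists_equiv_fin K
  let val : Crd q n k → N := Sum.elim (fun a => (eK.symm a : N)) (fun z => c z.1 z.2.1 z.2.2)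
  have hbij : Function.Bijective val := by
    constructor
    · rintro (a | ⟨i, j, l⟩) (a' | ⟨i', j', l'⟩) h
      · simp only [val, Sum.elim_inl] at h
        rw [eK.symm.injective (Subtype.ext h)]
      · simp only [val, Sum.elim_inl, Sum.elim_inr] at h
        exact absurd (h ▸ (eK.symm a).2) (hcK i' j' l')
      · simp only [val, Sum.elim_inl, Sum.elim_inr] at h
        exact absurd (h ▸ (eK.symm a').2) (hcK i j l)
      · simp only [val, Sum.elim_inr] at h
        exact congrArg Sum.inr (hinj i j l i' j' l' h)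
    · intro x
      rcases hcov x with hx | ⟨i, j, l, hx⟩
      · exact ⟨.inl (eK ⟨x, hx⟩), by simp [val]⟩
      · exact ⟨.inr ⟨i, j, l⟩, hx⟩
  have hone : ∀ (i : Fin n) (τ : Equiv.Perm ℕ) (s : σ.Sy) (x : Fin (σ.ar s) → Crd q n k),
      A s (val ∘ actC (Function.update (fun _ => 1) i τ) ∘ x) ↔ A s (val ∘ x) := by
    intro i τ s x
    obtain ⟨g, hg, hgc, hgx⟩ := hsym i τ
    have h1 : val ∘ actC (Function.update (fun _ => 1) i τ) ∘ x = g ∘ (val ∘ x) := by
      funext t
      simp only [Function.comp_apply]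
      rcases hx : x t with a | ⟨i', j, l⟩
      · have h2 : g (eK.symm a : N) = (eK.symm a : N) := by
          refine hgx _ fun j l h => hcK i j l ?_
          rw [h]
          exact (eK.symm a).2
        exact h2.symm
      · by_cases hi : i' = i
        · subst hi
          have h2 := hgc j l
          simp only [actC, val, Sum.elim_inr, Function.update_self]
          exact h2.symm
        · have h2 : g (c i' j l) = c i' j l := by
            refine hgx _ fun j' l' h => hi ?_
            have h3 := hinj _ _ _ _ _ _ h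
            simp only [Sigma.mk.injEq] at h3
            exact h3.1.symm
          simp only [actC, val, Sum.elim_inr, Function.update_of_ne hi]
          exact h2.symm
    rw [h1]
    exact hg s _
  have hall : ∀ (τ : Fin n → Equiv.Perm ℕ) (F : Finset (Fin n)) (s : σ.Sy)
      (x : Fin (σ.ar s) → Crd q n k),
      A s (val ∘ actC (fun i => if i ∈ F then τ i else 1) ∘ x) ↔ A s (val ∘ x) := by
    intro τ F
    induction F using Finset.induction_on with
    | empty =>
      intro s x
      have h1 : val ∘ actC (fun i => if i ∈ (∅ : Finset (Fin n)) then τ i else 1) ∘ x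
          = val ∘ x := by
        funext t
        simp only [Function.comp_apply, Finset.notMem_empty, if_false]
        rw [actC_one]
      rw [h1]
    | insert i F hi ih =>
      intro s x
      have h1 : val ∘ actC (fun i' => if i' ∈ insert i F then τ i' else 1) ∘ x
          = val ∘ actC (Function.update (fun _ => 1) i (τ i)) ∘
            (actC (fun i => if i ∈ F then τ i else 1) ∘ x) := by
        funext t
        simp only [Function.comp_apply]
        rw [actC_mul]
        congr 2
        funext i'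
        by_cases h : i' = i
        · subst h
          simp [hi]
        · simp [Function.update_of_ne h, Finset.mem_insert, h]
      rw [h1, hone]
      exact ih s x
  refine ⟨⟨q, n, k, {z | A z.1 (val ∘ rcrd ∘ z.2)}⟩, Equiv.ofBijective val hbij, ?_, ?_⟩
  · intro τ s x
    have h1 := hall τ Finset.univ s x
    simp only [Finset.mem_univ, if_true] at h1
    exact h1
  · intro s x
    exact Iff.rfl

theorem cell_code (σ : Sig) : ∃ (D : Type) (_ : Countable D) (code : ∀ N : Type, RS σ N → D),
    ∀ (N N' : Type) (A : RS σ N) (A' : RS σ N'), Cell A → Cell A' → code N A = code N' A' →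
      ∃ e : N ≃ N', Emb A A' e := by
  classical
  let d0 : Code σ := ⟨0, 0, fun _ => 0, ∅⟩
  refine ⟨Code σ, inferInstance, fun N A => if h : ∃ d, HasCode A d then Classical.choose h
    else d0, ?_⟩
  intro N N' A A' hA hA' hcode
  have h1 := exists_hasCode hA
  have h2 := exists_hasCode hA'
  simp only at hcode
  rw [dif_pos h1, dif_pos h2] at hcode
  have h3 := Classical.choose_spec h1
  have h4 := Classical.choose_spec h2
  rw [hcode] at h3
  exact iso_of_hasCode h3 h4

end Pool.Agent.Helper89.EA
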