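import Pool.Agent.Helper89.EA.P.B4a
import Pool.Agent.Helper89.EA.P.C1a

/-!
# Project EA, piece C1b: cellular ages have only countably many theories

Proof: if `F` is the family of `Many`, then by `age_subset_iff`, `cellularAge_iff` all `F S` are
cellular; `cell_code` and `elemEquiv_of_emb` show that `S ↦ code (F S)` is an injection of
`Set ℕ` in a countable type: contradiction with Cantor's theorem (`Cardinal` or
`not_countable`, e.g. `Function.cantor_injective`).
-/

namespace Pool.Agent.Helper89.EA

open FirstOrder FirstOrder.Language CategoryTheory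

variable (L : FirstOrder.Language.{0, 0}) [L.IsRelational] [Finite (Σ n, L.Relations n)]

theorem not_many_of_cellularAge (M : Type) [L.Structure M] (h : CellularAge L M) :
    ¬ Many L M := by
  rintro ⟨F, hF, hage, hne⟩
  obtain ⟨D, hD, code, hcode⟩ := cell_code (sigOf L)
  obtain ⟨g, hg⟩ := hD.exists_injective_nat
  have hcell : ∀ S, Cell (rsOf L (F S)) := by
    intro S
    have h1 : Cellular L (F S) := h (F S) (hage S).le
    exact (cellular_iff L (F S)).mp h1
  refine Function.cantor_injective (fun S => g (code (F S) (rsOf L (F S)))) ?_
  intro S T hST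
  by_contra hcon
  obtain ⟨e, he⟩ := hcode _ _ _ _ (hcell S) (hcell T) (hg hST)
  exact hne S T hcon (elemEquiv_of_emb L e he)

end Pool.Agent.Helper89.EA
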