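import Pool.Agent.Helper89.EA.P.B1b

/-!
# Project EA, piece C2: substructures of cellular structures are cellular

Proof.  Let `A` be cellular with data `K, n, k, c` and `f : K' → N` an embedding.  For `i : Fin n`
and `j : ℕ` let `T i j : Set (Fin (k i))` be the set of `l` with `c i j l ∈ range f`.  For `i` and
`T : Set (Fin (k i))` with `J i T = {j | T i j = T}` infinite we get a new piece type
(enumerate `J i T` increasingly, and `T` by `Fin (Nat.card T)`); the points of the `c i j` with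
`J i (T i j)` finite, together with those of `K`, form the new finite exceptional set.  A
permutation of the new pieces of type `(i, T)` extends to a permutation of `ℕ` fixing everything
outside `J i T`; the corresponding automorphism of `A` preserves the range of `f`.
(The new piece types `(i, T)` form a subtype of a finite type, use `Finite.equivFin`.)
-/

namespace Pool.Agent.Helper89.EA

variable {σ : Sig} {N N' : Type}

/-- cellularity with an arbitrary finite type of piece types -/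
theorem cell_of_finite {A : RS σ N} {ι : Type} [Finite ι] (K : Set N) (k : ι → ℕ)
    (c : ∀ i : ι, ℕ → Fin (k i) → N) (hK : K.Finite) (hcov : ∀ x, x ∈ K ∨ ∃ i j l, c i j l = x)
    (hcK : ∀ i j l, c i j l ∉ K)
    (hinj : ∀ i j l i' j' l', c i j l = c i' j' l' →
      (⟨i, j, l⟩ : Σ i : ι, ℕ × Fin (k i)) = ⟨i', j', l'⟩)
    (haut : ∀ (i : ι) (τ : Equiv.Perm ℕ), ∃ g : N ≃ N,
      (∀ s x, A s (g ∘ x) ↔ A s x) ∧ (∀ j l, g (c i j l) = c i (τ j) l) ∧
      ∀ x, (∀ j l, c i j l ≠ x) → g x = x) : Cell A := by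
  let ε : Fin (Nat.card ι) ≃ ι := (Finite.equivFin ι).symm
  refine ⟨K, Nat.card ι, fun i => k (ε i), fun i => c (ε i), hK, ?_, fun i => hcK (ε i), ?_,
    fun i => haut (ε i)⟩
  · intro x
    rcases hcov x with h | ⟨i, j, l, h⟩
    · exact Or.inl h
    · right
      obtain ⟨i', rfl⟩ := ε.surjective i
      exact ⟨i', j, l, h⟩
  · intro i j l i' j' l' h
    have h1 := hinj _ _ _ _ _ _ h
    have h2 : i = i' := ε.injective (congrArg Sigma.fst h1)
    subst h2
    have h3 := eq_of_heq (Sigma.mk.inj h1).2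
    rw [h3]

theorem cell_of_emb {A : RS σ N} {B : RS σ N'} {f : N' → N} (hf : Emb B A f) (hA : Cell A) :
    Cell B := by
  classical
  obtain ⟨K, n, k, c, hK, hcov, hcK, hinj, haut⟩ := hA
  have hfinj : Function.Injective f := fun x y h => (hf.1 x y).2 h
  -- the set of labels of a piece in the range of `f`
  let T : ∀ i : Fin n, ℕ → Finset (Fin (k i)) := fun i j =>
    Finset.univ.filter fun l => c i j l ∈ Set.range f
  have hT : ∀ i j l, l ∈ T i j ↔ c i j l ∈ Set.range f := by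
    intro i j l
    simp [T]
  let P : Type := {p : Σ i : Fin n, Finset (Fin (k i)) // {j | T p.1 j = p.2}.Infinite}
  have hPinf : ∀ p : P, Infinite {j | T p.1.1 j = p.1.2} := fun p => p.2.to_subtype
  let e : ∀ p : P, ℕ ≃ {j | T p.1.1 j = p.1.2} := fun p =>
    (@Nat.Subtype.orderIsoOfNat {j | T p.1.1 j = p.1.2} (hPinf p)).toEquiv
  let en : ∀ p : P, Fin p.1.2.card ≃ p.1.2 := fun p => p.1.2.equivFin.symm
  have hex : ∀ (p : P) (j : ℕ) (l : Fin p.1.2.card),
      ∃ x, f x = c p.1.1 (e p j : ℕ) (en p l : Fin (k p.1.1)) := by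
    intro p j l
    have h1 : ((en p l : p.1.2) : Fin (k p.1.1)) ∈ T p.1.1 (e p j : ℕ) := by
      have h2 : T p.1.1 (e p j : ℕ) = p.1.2 := (e p j).2
      rw [h2]
      exact (en p l).2
    exact (hT _ _ _).1 h1
  choose d hd using hex
  -- the exceptional set
  let K' : Set N' := {x | f x ∈ K ∨ ∃ (i : Fin n) (j : ℕ) (l : Fin (k i)), c i j l = f x ∧
    {j' | T i j' = T i j}.Finite}
  have hsig : ∀ {i j l i' j' l'}, c i j l = c i' j' l' →
      (⟨i, j, l⟩ : Σ i : Fin n, ℕ × Fin (k i)) = ⟨i', j', l'⟩ := fun h => hinj _ _ _ _ _ _ h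
  refine cell_of_finite (ι := P) K' (fun p => p.1.2.card) d ?_ ?_ ?_ ?_ ?_
  · -- finiteness
    have h1 : (f ⁻¹' K).Finite := hK.preimage hfinj.injOn
    have h2 : (⋃ p : {p : Σ i : Fin n, Finset (Fin (k i)) // {j | T p.1 j = p.2}.Finite},
        f ⁻¹' ((fun q : ℕ × Fin (k p.1.1) => c p.1.1 q.1 q.2) ''
          ({j | T p.1.1 j = p.1.2} ×ˢ Set.univ))).Finite := by
      apply Set.finite_iUnion
      intro p
      apply Set.Finite.preimage hfinj.injOn
      exact (p.2.prod Set.finite_univ).image _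
    refine (h1.union h2).subset ?_
    rintro x (hx | ⟨i, j, l, hx, hfin⟩)
    · exact Or.inl hx
    · right
      rw [Set.mem_iUnion]
      exact ⟨⟨⟨i, T i j⟩, hfin⟩, (j, l), ⟨rfl, trivial⟩, hx⟩
  · -- covering
    intro x
    rcases hcov (f x) with h | ⟨i, j, l, h⟩
    · exact Or.inl (Or.inl h)
    · by_cases hfin : {j' | T i j' = T i j}.Finite
      · exact Or.inl (Or.inr ⟨i, j, l, h, hfin⟩)
      · right
        let p : P := ⟨⟨i, T i j⟩, hfin⟩
        have hl : l ∈ T i j := (hT _ _ _).2 ⟨x, h.symm⟩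
        refine ⟨p, (e p).symm ⟨j, rfl⟩, (en p).symm ⟨l, hl⟩, hfinj ?_⟩
        rw [hd, Equiv.apply_symm_apply, Equiv.apply_symm_apply]
        exact h
  · -- the new pieces do not meet the exceptional set
    rintro ⟨⟨i, S⟩, hp⟩ j l hx
    rcases hx with hx | ⟨i', j', l', hx, hfin⟩
    · rw [hd] at hx
      exact hcK _ _ _ hx
    · rw [hd] at hx
      have h1 := hsig hx
      have h2 : i' = i := congrArg Sigma.fst h1
      subst h2
      have h3 := eq_of_heq (Sigma.mk.inj h1).2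
      have h4 : j' = (e ⟨⟨i', S⟩, hp⟩ j : ℕ) := congrArg Prod.fst h3
      have h5 : T i' j' = S := by
        rw [h4]
        exact (e ⟨⟨i', S⟩, hp⟩ j).2
      rw [h5] at hfin
      exact hp hfin
  · -- injectivity
    rintro ⟨⟨i, S⟩, hp⟩ j l ⟨⟨i', S'⟩, hp'⟩ j' l' h
    have h0 := congrArg f h
    rw [hd, hd] at h0
    have h1 := hsig h0
    have h2 : i = i' := congrArg Sigma.fst h1
    subst h2
    have h3 := eq_of_heq (Sigma.mk.inj h1).2
    have h4 : (e ⟨⟨i, S⟩, hp⟩ j : ℕ) = (e ⟨⟨i, S'⟩, hp'⟩ j' : ℕ) := congrArg Prod.fst h3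
    have h5 : S = S' := by
      have h6 : T i (e ⟨⟨i, S⟩, hp⟩ j : ℕ) = S := (e ⟨⟨i, S⟩, hp⟩ j).2
      have h7 : T i (e ⟨⟨i, S'⟩, hp'⟩ j' : ℕ) = S' := (e ⟨⟨i, S'⟩, hp'⟩ j').2
      rw [← h6, ← h7, h4]
    subst h5
    have h8 : j = j' := (e ⟨⟨i, S⟩, hp⟩).injective (Subtype.ext h4)
    have h9 : ((en ⟨⟨i, S⟩, hp⟩ l : S) : Fin (k i)) = (en ⟨⟨i, S⟩, hp⟩ l' : S) :=
      congrArg Prod.snd h3
    have h10 : l = l' := (en ⟨⟨i, S⟩, hp⟩).injective (Subtype.ext h9)
    rw [h8, h10]
  · -- automorphisms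
    intro p τ
    let τ' : Equiv.Perm ℕ := τ.extendDomain (e p)
    have hτ1 : ∀ j : ℕ, τ' (e p j : ℕ) = (e p (τ j) : ℕ) := fun j =>
      Equiv.Perm.extendDomain_apply_image τ (e p) j
    have hτ2 : ∀ j : ℕ, T p.1.1 j ≠ p.1.2 → τ' j = j := fun j hj =>
      Equiv.Perm.extendDomain_apply_not_subtype τ (e p) hj
    have hτ3 : ∀ j : ℕ, T p.1.1 (τ' j) = T p.1.1 j := by
      intro j
      by_cases hj : T p.1.1 j = p.1.2
      · obtain ⟨j₀, hj₀⟩ := (e p).surjective ⟨j, hj⟩
        have h1 : (e p j₀ : ℕ) = j := congrArg Subtype.val hj₀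
        rw [← h1, hτ1]
        have h2 : T p.1.1 (e p (τ j₀) : ℕ) = p.1.2 := (e p (τ j₀)).2
        have h3 : T p.1.1 (e p j₀ : ℕ) = p.1.2 := (e p j₀).2
        rw [h2, h3]
      · rw [hτ2 j hj]
    obtain ⟨g, hg1, hg2, hg3⟩ := haut p.1.1 τ'
    have hgr : ∀ y, g y ∈ Set.range f ↔ y ∈ Set.range f := by
      intro y
      by_cases hy : ∃ j l, c p.1.1 j l = y
      · obtain ⟨j, l, rfl⟩ := hy
        rw [hg2, ← hT, ← hT, hτ3]
      · push Not at hy
        rw [hg3 y hy]
    let E : N' ≃ Set.range f := Equiv.ofInjective f hfinj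
    let g' : N' ≃ N' := (E.trans (Equiv.Perm.subtypePerm g hgr)).trans E.symm
    have hg' : ∀ x, f (g' x) = g (f x) := by
      intro x
      have h1 : ∀ z : Set.range f, f (E.symm z) = z := fun z =>
        Equiv.apply_ofInjective_symm hfinj z
      change f (E.symm ((Equiv.Perm.subtypePerm g hgr) (E x))) = g (f x)
      rw [h1]
      rfl
    refine ⟨g', ?_, ?_, ?_⟩
    · intro s x
      have h1 := hf.2 s (g' ∘ x)
      have h2 := hf.2 s x
      have h3 : f ∘ (g' ∘ x) = g ∘ (f ∘ x) := by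
        funext i
        exact hg' (x i)
      change B s (g' ∘ x) ↔ A s (f ∘ (g' ∘ x)) at h1
      change B s x ↔ A s (f ∘ x) at h2
      rw [h1, h2, h3, hg1]
    · intro j l
      apply hfinj
      rw [hg', hd, hd, hg2, hτ1]
    · intro x hx
      apply hfinj
      rw [hg']
      by_cases hy : ∃ j l, c p.1.1 j l = f x
      · obtain ⟨j, l, hjl⟩ := hy
        by_cases hj : T p.1.1 j = p.1.2
        · exfalso
          have hl : l ∈ p.1.2 := by
            rw [← hj, hT]
            exact ⟨x, hjl.symm⟩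
          apply hx ((e p).symm ⟨j, hj⟩) ((en p).symm ⟨l, hl⟩)
          apply hfinj
          rw [hd, Equiv.apply_symm_apply, Equiv.apply_symm_apply]
          exact hjl
        · rw [← hjl, hg2, hτ2 j hj]
      · push Not at hy
        exact hg3 _ hy

end Pool.Agent.Helper89.EA
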